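import Pool.Agent.H776R3.CDF.Var

open Set Filter Topology ComplexConjugate MeasureTheory
open scoped ContDiff Interval

namespace Pool.Agent.H776R3.CDF

variable {γ : ℝ → ℂ}

/-- arc length parameter -/
noncomputable def sig (γ : ℝ → ℂ) (x : ℝ) : ℝ := ∫ y in (0 : ℝ)..x, ‖deriv γ y‖

lemma sig_zero : sig γ 0 = 0 := by simp [sig]

lemma sig_one : sig γ 1 = len γ := rfl

lemma hasDerivAt_sig (h : IsClosedCurve γ) (x : ℝ) : HasDerivAt (sig γ) ‖deriv γ x‖ x :=
  intervalIntegral.integral_hasDerivAt_right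
    (h.continuous_deriv.norm.intervalIntegrable _ _)
    (h.continuous_deriv.norm.stronglyMeasurableAtFilter _ _)
    h.continuous_deriv.norm.continuousAt

lemma contDiff_sig (h : IsClosedCurve γ) : ContDiff ℝ ∞ (sig γ) := by
  rw [contDiff_infty_iff_deriv]
  refine ⟨fun x => (hasDerivAt_sig h x).differentiableAt, ?_⟩
  have : deriv (sig γ) = fun x => ‖deriv γ x‖ := funext fun x => (hasDerivAt_sig h x).deriv
  rw [this]
  exact h.contDiff_norm

lemma strictMono_sig (h : IsClosedCurve γ) : StrictMono (sig γ) := by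
  apply strictMono_of_deriv_pos
  intro x
  rw [(hasDerivAt_sig h x).deriv]
  exact h.norm_pos x

lemma sig_add_one (h : IsClosedCurve γ) (x : ℝ) : sig γ (x + 1) = sig γ x + len γ := by
  unfold sig len
  have hper : Function.Periodic (fun x => ‖deriv γ x‖) 1 := by
    intro x
    simp only [periodic_deriv h.periodic x]
  rw [← intervalIntegral.integral_add_adjacent_intervals
    (b := x) (h.continuous_deriv.norm.intervalIntegrable _ _)
    (h.continuous_deriv.norm.intervalIntegrable _ _), hper.intervalIntegral_add_eq x 0, zero_add]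

lemma sig_nat (h : IsClosedCurve γ) (n : ℕ) : sig γ n = n * len γ := by
  induction n with
  | zero => simp [sig_zero]
  | succ n ih =>
    rw [Nat.cast_succ, sig_add_one h, ih]
    ring

lemma sig_neg_nat (h : IsClosedCurve γ) (n : ℕ) : sig γ (-n) = -(n * len γ) := by
  induction n with
  | zero => simp [sig_zero]
  | succ n ih =>
    have := sig_add_one h (-((n : ℝ) + 1))
    have e : -((n : ℝ) + 1) + 1 = -n := by ring
    rw [e, ih] at this
    rw [Nat.cast_succ]
    linarith

lemma sig_surjective (h : IsClosedCurve γ) (s : ℝ) : ∃ x, sig γ x = s := by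
  have hL := len_pos h
  obtain ⟨n, hn⟩ := exists_nat_ge (|s| / len γ)
  rw [div_le_iff₀ hL] at hn
  have h1 := abs_le.mp hn
  refine mem_range_of_exists_le_of_exists_ge (contDiff_sig h).continuous
    ⟨-n, ?_⟩ ⟨n, ?_⟩
  · rw [sig_neg_nat h]
    exact h1.1
  · rw [sig_nat h]
    exact h1.2

section

variable {κ : ℝ}

/-- angle function -/
lemma tangent_eq (h : IsClosedCurve γ)
    (hEL : ∀ x, deriv (tangent γ) x = Complex.I * (κ : ℂ) * deriv γ x) (x : ℝ) :
    tangent γ x = tangent γ 0 * Complex.exp (((κ * sig γ x : ℝ) : ℂ) * Complex.I) := by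
  have hd : ∀ x, HasDerivAt
      (fun x => tangent γ x * Complex.exp (-(((κ * sig γ x : ℝ) : ℂ) * Complex.I))) 0 x := by
    intro x
    have h1 : HasDerivAt (tangent γ) (deriv (tangent γ) x) x :=
      hasDerivAt_of_contDiff h.contDiff_tangent x
    have h2 : HasDerivAt (fun x => ((κ * sig γ x : ℝ) : ℂ)) ((κ * ‖deriv γ x‖ : ℝ) : ℂ) x :=
      ((hasDerivAt_sig h x).const_mul κ).ofReal_comp
    have h3 := (h2.mul_const Complex.I).neg.cexp
    have h4 := h1.mul h3
    refine h4.congr_deriv ?_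
    rw [hEL x]
    have e := h.deriv_eq x
    set n : ℝ := ‖deriv γ x‖ with hn
    rw [e]
    push_cast
    ring
  have hconst := is_const_of_deriv_eq_zero (fun x => (hd x).differentiableAt)
    (fun x => (hd x).deriv) x 0
  have h0 : tangent γ 0 * Complex.exp (-(((κ * sig γ 0 : ℝ) : ℂ) * Complex.I))
      = tangent γ 0 := by
    rw [sig_zero]
    simp
  rw [h0] at hconst
  rw [← hconst, mul_assoc, ← Complex.exp_add]
  simp

/-- centre of the circle -/
lemma curve_eq (h : IsClosedCurve γ) (hκ : κ ≠ 0)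
    (hEL : ∀ x, deriv (tangent γ) x = Complex.I * (κ : ℂ) * deriv γ x) :
    ∃ z₀ : ℂ, ∀ x, γ x - z₀ = -Complex.I * tangent γ x / (κ : ℂ) := by
  have hκ' : (κ : ℂ) ≠ 0 := by exact_mod_cast hκ
  have hd : ∀ x, HasDerivAt (fun x => γ x + Complex.I * tangent γ x / (κ : ℂ)) 0 x := by
    intro x
    have h1 : HasDerivAt (tangent γ) (deriv (tangent γ) x) x :=
      hasDerivAt_of_contDiff h.contDiff_tangent x
    have h4 := (h.hasDerivAt x).add ((h1.const_mul Complex.I).div_const (κ : ℂ))
    refine h4.congr_deriv ?_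
    rw [hEL x]
    have : Complex.I * (Complex.I * (κ : ℂ) * deriv γ x) / (κ : ℂ)
        = (Complex.I * Complex.I) * deriv γ x := by
      field_simp
    rw [this, Complex.I_mul_I]
    ring
  refine ⟨γ 0 + Complex.I * tangent γ 0 / (κ : ℂ), fun x => ?_⟩
  have hconst := is_const_of_deriv_eq_zero (fun x => (hd x).differentiableAt)
    (fun x => (hd x).deriv) x 0
  rw [← hconst]
  ring

lemma integral_cos (h : IsClosedCurve γ) (hκ : κ ≠ 0) {c : ℝ} (hc : c ≠ 0)
    (hs : Real.sin (c * (κ * len γ)) = 0) :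
    ∫ x in (0 : ℝ)..1, ‖deriv γ x‖ * Real.cos (c * (κ * sig γ x)) = 0 := by
  have hd : ∀ x, HasDerivAt (fun x => Real.sin (c * (κ * sig γ x)) / (c * κ))
      (‖deriv γ x‖ * Real.cos (c * (κ * sig γ x))) x := by
    intro x
    have h1 : HasDerivAt (fun x => c * (κ * sig γ x)) (c * (κ * ‖deriv γ x‖)) x :=
      ((hasDerivAt_sig h x).const_mul κ).const_mul c
    have h2 := h1.sin.div_const (c * κ)
    refine h2.congr_deriv ?_
    field_simp
  rw [intervalIntegral.integral_eq_sub_of_hasDerivAt (fun x _ => hd x)]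
  · rw [sig_one, sig_zero, hs]
    simp
  · refine Continuous.intervalIntegrable ?_ _ _
    exact h.continuous_deriv.norm.mul
      (Real.continuous_cos.comp (continuous_const.mul
        (continuous_const.mul (contDiff_sig h).continuous)))

/-- The second variation excludes circles covered at least twice. -/
lemma not_multiple (h : IsClosedCurve γ) (hs : DynamicallyStableCDF γ)
    (hκL : κ * (2 * area γ) = len γ)
    (hEL : ∀ x, deriv (tangent γ) x = Complex.I * (κ : ℂ) * deriv γ x) {m : ℤ}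
    (hm : κ * len γ = 2 * Real.pi * m) : m.natAbs ≤ 1 := by
  by_contra hcon
  push Not at hcon
  have hm2 : (4 : ℝ) ≤ (m : ℝ) ^ 2 := by
    have h2 : 2 ≤ m.natAbs := hcon
    have h3 : (4 : ℤ) ≤ m ^ 2 := by
      have : (m.natAbs : ℤ) ^ 2 = m ^ 2 := by rw [Int.natCast_natAbs, sq_abs]
      rw [← this]
      have : (2 : ℤ) ≤ (m.natAbs : ℤ) := by exact_mod_cast h2
      nlinarith
    exact_mod_cast h3
  have hm0 : (m : ℝ) ≠ 0 := by
    intro h0
    rw [h0] at hm2
    norm_num at hm2
  have hL := len_pos h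
  have hκ : κ ≠ 0 := by
    intro h0
    rw [h0] at hκL
    linarith
  have hA := area_ne_zero h hs
  obtain ⟨K, ε, hε, hr⟩ := stable_ratio h hs
  obtain ⟨z₀, hz⟩ := curve_eq h hκ hEL
  -- the perturbation
  set θ : ℝ → ℝ := fun x => κ * sig γ x with hθ
  have hθc : ContDiff ℝ ∞ θ := contDiff_const.mul (contDiff_sig h)
  set f : ℝ → ℝ := fun x => Real.cos (1 / m * θ x) with hf
  have hfc : ContDiff ℝ ∞ f := Real.contDiff_cos.comp (contDiff_const.mul hθc)
  have hθ1 : ∀ x, θ (x + 1) = θ x + 2 * Real.pi * m := by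
    intro x
    simp only [hθ]
    rw [sig_add_one h, mul_add, hm]
  have hfp : Function.Periodic f 1 := by
    intro x
    simp only [hf]
    rw [hθ1 x, mul_add]
    have : 1 / (m : ℝ) * (2 * Real.pi * m) = 2 * Real.pi := by field_simp
    rw [this, Real.cos_add_two_pi]
  set ψ : ℝ → ℂ := fun x => (f x : ℂ) * (γ x - z₀) with hψd
  have hψ : ContDiff ℝ ∞ ψ := (ofReal_contDiff hfc).mul (h.smooth.sub contDiff_const)
  have hp : Function.Periodic ψ 1 := by
    intro x
    simp only [hψd, hfp x, h.periodic x]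
  obtain ⟨δ₀, hδ₀, hcl⟩ := pert_close h hψ hp K hε
  have hf' : ∀ x, HasDerivAt f (-Real.sin (1 / m * θ x) * (1 / m * (κ * ‖deriv γ x‖))) x := by
    intro x
    have h1 : HasDerivAt (fun x => 1 / (m : ℝ) * θ x) (1 / m * (κ * ‖deriv γ x‖)) x :=
      ((hasDerivAt_sig h x).const_mul κ).const_mul _
    exact h1.cos
  have hψ' : ∀ x, deriv ψ x = ((-Real.sin (1 / m * θ x) * (1 / m * (κ * ‖deriv γ x‖)) : ℝ) : ℂ)
      * (γ x - z₀) + (f x : ℂ) * deriv γ x := by
    intro x
    have h1 := ((hf' x).ofReal_comp).mul ((h.hasDerivAt x).sub_const z₀)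
    exact h1.deriv
  have hκ' : (κ : ℂ) ≠ 0 := by exact_mod_cast hκ
  -- basic products
  have hgγ : ∀ x, conj (γ x - z₀) * deriv γ x = ((‖deriv γ x‖ / κ : ℝ) : ℂ) * Complex.I := by
    intro x
    rw [hz x]
    conv_lhs => rw [h.deriv_eq x]
    rw [map_div₀, map_mul, map_neg, Complex.conj_I, Complex.conj_ofReal]
    have := conj_mul_self_eq (h.norm_tangent x)
    calc - -Complex.I * conj (tangent γ x) / (κ : ℂ) * ((‖deriv γ x‖ : ℂ) * tangent γ x)
        = Complex.I * (‖deriv γ x‖ : ℂ) / (κ : ℂ) * (conj (tangent γ x) * tangent γ x) := by ring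
      _ = _ := by
        rw [this]
        push_cast
        ring
  have hgg : ∀ x, conj (γ x - z₀) * (γ x - z₀) = ((1 / κ ^ 2 : ℝ) : ℂ) := by
    intro x
    rw [mul_comm, Complex.mul_conj, Complex.normSq_eq_norm_sq, hz x, norm_div, norm_mul, norm_neg,
      Complex.norm_I, h.norm_tangent x, Complex.norm_real, Real.norm_eq_abs]
    push_cast
    rw [div_pow, ← Complex.ofReal_pow, sq_abs]
    push_cast
    ring
  -- integrals of cosines
  have hsin1 : Real.sin (1 / m * (κ * len γ)) = 0 := by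
    rw [hm]
    have : 1 / (m : ℝ) * (2 * Real.pi * m) = 2 * Real.pi := by field_simp
    rw [this, Real.sin_two_pi]
  have hsin2 : Real.sin (2 / m * (κ * len γ)) = 0 := by
    rw [hm]
    have : 2 / (m : ℝ) * (2 * Real.pi * m) = (4 : ℤ) * Real.pi := by
      field_simp
      norm_num
    rw [this]
    exact Real.sin_int_mul_pi 4
  have hI1 : ∫ x in (0 : ℝ)..1, ‖deriv γ x‖ * f x = 0 :=
    integral_cos h hκ (one_div_ne_zero hm0) hsin1
  have hI2 : ∫ x in (0 : ℝ)..1, ‖deriv γ x‖ * Real.cos (2 / m * θ x) = 0 :=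
    integral_cos h hκ (div_ne_zero two_ne_zero hm0) hsin2
  have hcn : Continuous (fun x => ‖deriv γ x‖) := h.continuous_deriv.norm
  have hcc : Continuous (fun x => ‖deriv γ x‖ * Real.cos (2 / m * θ x)) :=
    hcn.mul (Real.continuous_cos.comp (continuous_const.mul hθc.continuous))
  have hcos2 : ∀ x, Real.cos (2 / m * θ x) = 2 * f x ^ 2 - 1 := by
    intro x
    have : 2 / (m : ℝ) * θ x = 2 * (1 / m * θ x) := by ring
    rw [this, Real.cos_two_mul]
  have hIf2 : ∫ x in (0 : ℝ)..1, ‖deriv γ x‖ * f x ^ 2 = len γ / 2 := by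
    have e : ∀ x, ‖deriv γ x‖ * f x ^ 2
        = (1 / 2) * ‖deriv γ x‖ + (1 / 2) * (‖deriv γ x‖ * Real.cos (2 / m * θ x)) := by
      intro x
      rw [hcos2 x]
      ring
    simp_rw [e]
    rw [intervalIntegral.integral_add ((hcn.intervalIntegrable _ _).const_mul _)
      ((hcc.intervalIntegrable _ _).const_mul _), intervalIntegral.integral_const_mul,
      intervalIntegral.integral_const_mul, hI2]
    unfold len
    ring
  have hIs2 : ∫ x in (0 : ℝ)..1, ‖deriv γ x‖ * Real.sin (1 / m * θ x) ^ 2 = len γ / 2 := by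
    have e : ∀ x, ‖deriv γ x‖ * Real.sin (1 / m * θ x) ^ 2
        = ‖deriv γ x‖ - ‖deriv γ x‖ * f x ^ 2 := by
      intro x
      rw [Real.sin_sq]
      ring
    simp_rw [e]
    have j1 : IntervalIntegrable (fun x => ‖deriv γ x‖) volume 0 1 := hcn.intervalIntegrable _ _
    have j2 : IntervalIntegrable (fun x => ‖deriv γ x‖ * f x ^ 2) volume 0 1 :=
      (hcn.mul (hfc.continuous.pow 2)).intervalIntegrable _ _
    rw [intervalIntegral.integral_sub j1 j2, hIf2]
    unfold len
    ring
  -- area of the perturbation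
  have harea : ∀ δ : ℝ, area (pert γ ψ δ) = area γ * (1 + δ ^ 2 / 2) := by
    intro δ
    rw [area_pert h hψ hp]
    have e1 : ∀ x, (conj (ψ x) * deriv γ x).im = (1 / κ) * (‖deriv γ x‖ * f x) := by
      intro x
      have : conj (ψ x) * deriv γ x = (f x : ℂ) * (conj (γ x - z₀) * deriv γ x) := by
        simp only [hψd, map_mul, Complex.conj_ofReal]
        ring
      rw [this, hgγ x, Complex.im_ofReal_mul, Complex.mul_I_im, Complex.ofReal_re]
      ring
    have e2 : ∀ x, (conj (ψ x) * deriv ψ x).im = (1 / κ) * (‖deriv γ x‖ * f x ^ 2) := by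
      intro x
      rw [hψ' x]
      set q : ℝ := -Real.sin (1 / m * θ x) * (1 / m * (κ * ‖deriv γ x‖)) with hq
      have : conj (ψ x) * ((q : ℂ) * (γ x - z₀) + (f x : ℂ) * deriv γ x)
          = ((f x * q : ℝ) : ℂ) * (conj (γ x - z₀) * (γ x - z₀))
            + ((f x ^ 2 : ℝ) : ℂ) * (conj (γ x - z₀) * deriv γ x) := by
        simp only [hψd, map_mul, Complex.conj_ofReal]
        push_cast
        ring
      rw [this, hgg x, hgγ x, Complex.add_im, Complex.im_ofReal_mul, Complex.im_ofReal_mul,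
        Complex.ofReal_im, Complex.mul_I_im, Complex.ofReal_re]
      ring
    have hA2 : area ψ = area γ / 2 := by
      unfold area
      simp_rw [e2]
      rw [intervalIntegral.integral_const_mul, hIf2, ← hκL]
      unfold area
      field_simp
    simp_rw [e1]
    rw [intervalIntegral.integral_const_mul, hI1, hA2]
    ring
  -- length of the perturbation
  have hlen : ∀ δ : ℝ, 0 < δ → δ ≤ 1 / 2 → len (pert γ ψ δ) ≤ len γ * (1 + δ ^ 2 / 8) := by
    intro δ hδ0 hδ1
    have hpt : ∀ x, ‖deriv (pert γ ψ δ) x‖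
        ≤ ‖deriv γ x‖ + δ * (‖deriv γ x‖ * f x)
          + δ ^ 2 / 4 * (‖deriv γ x‖ * Real.sin (1 / m * θ x) ^ 2) := by
      intro x
      rw [(hasDerivAt_pert h hψ δ x).deriv, hψ' x]
      set s := Real.sin (1 / m * θ x) with hs'
      set n := ‖deriv γ x‖ with hn
      have hn0 : 0 < n := h.norm_pos x
      have hf1 : f x ≤ 1 := Real.cos_le_one _
      have hf2 : -1 ≤ f x := Real.neg_one_le_cos _
      have hB : (1 / 2 : ℝ) ≤ 1 + δ * f x := by nlinarith
      have hRn : 0 ≤ n + δ * (n * f x) + δ ^ 2 / 4 * (n * s ^ 2) := by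
        have : n + δ * (n * f x) + δ ^ 2 / 4 * (n * s ^ 2)
            = n * ((1 + δ * f x) + δ ^ 2 / 4 * s ^ 2) := by ring
        rw [this]
        have : 0 ≤ δ ^ 2 / 4 * s ^ 2 := by positivity
        exact mul_nonneg hn0.le (by linarith)
      refine (sq_le_sq₀ (norm_nonneg _) hRn).mp ?_
      have hsq : ‖deriv γ x + δ • (((-s * (1 / m * (κ * n)) : ℝ) : ℂ) * (γ x - z₀)
            + (f x : ℂ) * deriv γ x)‖ ^ 2
          = n ^ 2 * (1 + δ * f x) ^ 2 + δ ^ 2 * n ^ 2 * s ^ 2 / (m : ℝ) ^ 2 := by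
        set q : ℝ := -s * (1 / m * (κ * n)) with hq
        have e3 : deriv γ x + δ • ((q : ℂ) * (γ x - z₀) + (f x : ℂ) * deriv γ x)
            = ((1 + δ * f x : ℝ) : ℂ) * deriv γ x + ((δ * q : ℝ) : ℂ) * (γ x - z₀) := by
          rw [Complex.real_smul]
          push_cast
          ring
        have e4 : ∀ z : ℂ, ‖z‖ ^ 2 = (conj z * z).re := by
          intro z
          rw [mul_comm, Complex.mul_conj, Complex.normSq_eq_norm_sq]
          norm_cast
        have e5 : conj (deriv γ x) * deriv γ x = ((n ^ 2 : ℝ) : ℂ) := by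
          rw [mul_comm, Complex.mul_conj, Complex.normSq_eq_norm_sq]
        have e6 : conj (deriv γ x) * (γ x - z₀) = -(((n / κ : ℝ) : ℂ) * Complex.I) := by
          have := congrArg conj (hgγ x)
          rw [map_mul, map_mul, Complex.conj_conj, Complex.conj_ofReal, Complex.conj_I] at this
          rw [mul_comm, this]
          ring
        rw [e3, e4]
        have e7 : conj (((1 + δ * f x : ℝ) : ℂ) * deriv γ x + ((δ * q : ℝ) : ℂ) * (γ x - z₀))
            * (((1 + δ * f x : ℝ) : ℂ) * deriv γ x + ((δ * q : ℝ) : ℂ) * (γ x - z₀))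
            = (((1 + δ * f x) ^ 2 : ℝ) : ℂ) * (conj (deriv γ x) * deriv γ x)
              + (((1 + δ * f x) * (δ * q) : ℝ) : ℂ) * (conj (deriv γ x) * (γ x - z₀)
                + conj (γ x - z₀) * deriv γ x)
              + (((δ * q) ^ 2 : ℝ) : ℂ) * (conj (γ x - z₀) * (γ x - z₀)) := by
          simp only [map_add, map_mul, Complex.conj_ofReal]
          push_cast
          ring
        rw [e7, e5, e6, hgγ x, hgg x, neg_add_cancel, mul_zero, add_zero, ← Complex.ofReal_mul,
          ← Complex.ofReal_mul, ← Complex.ofReal_add, Complex.ofReal_re, hq]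
        field_simp
      rw [hsq]
      have e8 : δ ^ 2 * n ^ 2 * s ^ 2 / (m : ℝ) ^ 2 ≤ δ ^ 2 * n ^ 2 * s ^ 2 / 4 :=
        div_le_div_of_nonneg_left (by positivity) (by norm_num) hm2
      have e9 : (n + δ * (n * f x) + δ ^ 2 / 4 * (n * s ^ 2)) ^ 2
          = n ^ 2 * (1 + δ * f x) ^ 2 + n ^ 2 * (1 + δ * f x) * (δ ^ 2 * s ^ 2) / 2
            + (δ ^ 2 / 4 * (n * s ^ 2)) ^ 2 := by ring
      have e10 : n ^ 2 * (1 / 2) * (δ ^ 2 * s ^ 2) / 2
          ≤ n ^ 2 * (1 + δ * f x) * (δ ^ 2 * s ^ 2) / 2 := by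
        have : 0 ≤ n ^ 2 * (δ ^ 2 * s ^ 2) := by positivity
        nlinarith
      have e11 : 0 ≤ (δ ^ 2 / 4 * (n * s ^ 2)) ^ 2 := by positivity
      rw [e9]
      nlinarith
    have i1 := hcn.intervalIntegrable (μ := volume) (0 : ℝ) 1
    have i2 := (hcn.mul hfc.continuous).intervalIntegrable (μ := volume) (0 : ℝ) 1
    have i3 : IntervalIntegrable (fun x => ‖deriv γ x‖ * Real.sin (1 / m * θ x) ^ 2)
        volume 0 1 :=
      (hcn.mul ((Real.continuous_sin.comp
        (continuous_const.mul hθc.continuous)).pow 2)).intervalIntegrable _ _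
    have i2' : IntervalIntegrable (fun x => ‖deriv γ x‖ * f x) volume 0 1 := i2
    calc len (pert γ ψ δ) = ∫ x in (0 : ℝ)..1, ‖deriv (pert γ ψ δ) x‖ := rfl
      _ ≤ ∫ x in (0 : ℝ)..1, (‖deriv γ x‖ + δ * (‖deriv γ x‖ * f x)
          + δ ^ 2 / 4 * (‖deriv γ x‖ * Real.sin (1 / m * θ x) ^ 2)) := by
        refine intervalIntegral.integral_mono_on (by norm_num) ?_
          ((i1.add (i2'.const_mul δ)).add (i3.const_mul _)) (fun x _ => hpt x)
        have e : deriv (pert γ ψ δ) = fun x => deriv γ x + δ • deriv ψ x := by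
          funext x
          exact (hasDerivAt_pert h hψ δ x).deriv
        rw [e]
        exact ((h.continuous_deriv.add
          ((contDiff_deriv' hψ).continuous.const_smul δ)).norm).intervalIntegrable _ _
      _ = len γ + δ * 0 + δ ^ 2 / 4 * (len γ / 2) := by
        rw [intervalIntegral.integral_add (i1.add (i2'.const_mul δ)) (i3.const_mul _),
          intervalIntegral.integral_add i1 (i2'.const_mul δ),
          intervalIntegral.integral_const_mul, intervalIntegral.integral_const_mul, hI1, hIs2]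
        rfl
      _ = len γ * (1 + δ ^ 2 / 8) := by ring
  -- conclusion
  set δ : ℝ := min (δ₀ / 2) (1 / 2) with hδ
  have hδ0 : 0 < δ := by positivity
  have hδ1 : δ ≤ 1 / 2 := min_le_right _ _
  have hδ2 : |δ| < δ₀ := by
    rw [abs_of_pos hδ0]
    have : δ ≤ δ₀ / 2 := min_le_left _ _
    linarith
  obtain ⟨h1, h2⟩ := hcl δ hδ2
  have h3 := hr _ h1 h2
  rw [harea δ, abs_mul, abs_of_pos (by positivity : (0 : ℝ) < 1 + δ ^ 2 / 2)] at h3
  have h4 := hlen δ hδ0 hδ1
  have h5 := len_pos h1
  have h6 : len (pert γ ψ δ) ^ 2 ≤ (len γ * (1 + δ ^ 2 / 8)) ^ 2 := pow_le_pow_left₀ h5.le h4 2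
  have hA' : 0 < |area γ| := abs_pos.mpr hA
  have h7 : |area γ| * (1 + δ ^ 2 / 2) * len γ ^ 2
      ≤ |area γ| * (len γ * (1 + δ ^ 2 / 8)) ^ 2 :=
    h3.trans (mul_le_mul_of_nonneg_left h6 hA'.le)
  have h8 : (1 + δ ^ 2 / 2) ≤ (1 + δ ^ 2 / 8) ^ 2 := by
    have h9 : |area γ| * len γ ^ 2 * (1 + δ ^ 2 / 2)
        ≤ |area γ| * len γ ^ 2 * (1 + δ ^ 2 / 8) ^ 2 := by
      calc |area γ| * len γ ^ 2 * (1 + δ ^ 2 / 2) = |area γ| * (1 + δ ^ 2 / 2) * len γ ^ 2 := by
            ring
        _ ≤ _ := h7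
        _ = _ := by ring
    exact le_of_mul_le_mul_left h9 (by positivity)
  have h10 : δ ^ 2 ≤ 1 / 4 := by nlinarith
  nlinarith [sq_nonneg δ, mul_pos hδ0 hδ0]

end

/-- A dynamically stable curve of the curve diffusion flow is a circle traversed once. -/
theorem stable_isCircle (h : IsClosedCurve γ) (hs : DynamicallyStableCDF γ) :
    IsCircleTraversedOnce γ := by
  have hA := area_ne_zero h hs
  have hL := len_pos h
  set κ : ℝ := len γ / (2 * area γ) with hκd
  have hκ : κ ≠ 0 := div_ne_zero hL.ne' (mul_ne_zero two_ne_zero hA)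
  have hκL : κ * (2 * area γ) = len γ := by
    rw [hκd]
    field_simp
  have hEL : ∀ x, deriv (tangent γ) x = Complex.I * (κ : ℂ) * deriv γ x := by
    intro x
    have h1 := euler_lagrange h hs x
    have h2 : ((2 * area γ : ℝ) : ℂ) ≠ 0 := by
      exact_mod_cast mul_ne_zero two_ne_zero hA
    have h3 : (κ : ℂ) * ((2 * area γ : ℝ) : ℂ) = (len γ : ℂ) := by
      rw [← Complex.ofReal_mul, hκL]
    apply mul_left_cancel₀ h2
    rw [h1, ← h3]
    ring
  have htan := tangent_eq h hEL
  obtain ⟨z₀, hz⟩ := curve_eq h hκ hEL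
  have hτ0 : tangent γ 0 ≠ 0 := by
    intro h0
    have := h.norm_tangent 0
    rw [h0, norm_zero] at this
    norm_num at this
  -- the integer
  obtain ⟨m, hm⟩ : ∃ m : ℤ, κ * len γ = 2 * Real.pi * m := by
    have h1 := htan 1
    have h2 := h.periodic_tangent 0
    rw [zero_add] at h2
    rw [h2, sig_one] at h1
    have h3 : Complex.exp (((κ * len γ : ℝ) : ℂ) * Complex.I) = 1 := by
      have : tangent γ 0 * Complex.exp (((κ * len γ : ℝ) : ℂ) * Complex.I)
          = tangent γ 0 * 1 := by rw [← h1, mul_one]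
      exact mul_left_cancel₀ hτ0 this
    obtain ⟨n, hn⟩ := Complex.exp_eq_one_iff.mp h3
    refine ⟨n, ?_⟩
    have h4 : ((κ * len γ : ℝ) : ℂ) * Complex.I = ((2 * Real.pi * n : ℝ) : ℂ) * Complex.I := by
      rw [hn]
      push_cast
      ring
    have h5 := mul_right_cancel₀ Complex.I_ne_zero h4
    exact_mod_cast h5
  have hm1 := not_multiple h hs hκL hEL hm
  have hmabs : |(m : ℝ)| ≤ 1 := by
    have : |m| ≤ 1 := by
      rw [← Int.natCast_natAbs]
      exact_mod_cast hm1
    exact_mod_cast this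
  have hr : (0 : ℝ) < 1 / |κ| := by
    have := abs_pos.mpr hκ
    positivity
  have hκ' : (κ : ℂ) ≠ 0 := by exact_mod_cast hκ
  have hnorm : ∀ x, ‖γ x - z₀‖ = 1 / |κ| := by
    intro x
    rw [hz x, norm_div, norm_mul, norm_neg, Complex.norm_I, h.norm_tangent x, Complex.norm_real,
      Real.norm_eq_abs, one_mul]
  refine ⟨z₀, 1 / |κ|, hr, ?_, ?_⟩
  · ext z
    simp only [mem_range, Set.mem_ofPred_eq]
    constructor
    · rintro ⟨x, rfl⟩
      exact hnorm x
    · intro hzz
      have hg0 : γ 0 - z₀ ≠ 0 := by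
        rw [← norm_pos_iff, hnorm 0]
        exact hr
      set w := (z - z₀) / (γ 0 - z₀) with hw
      have hwn : ‖w‖ = 1 := by
        rw [hw, norm_div, hzz, hnorm 0, div_self hr.ne']
      obtain ⟨x, hx⟩ := sig_surjective h (Complex.arg w / κ)
      refine ⟨x, ?_⟩
      have h1 : κ * sig γ x = Complex.arg w := by
        rw [hx]
        field_simp
      have h2 : Complex.exp (((κ * sig γ x : ℝ) : ℂ) * Complex.I) = w := by
        rw [h1]
        have := Complex.norm_mul_exp_arg_mul_I w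
        rw [hwn] at this
        simpa using this
      have h3 : γ x - z₀ = (γ 0 - z₀) * w := by
        rw [hz x, hz 0, htan x, h2]
        ring
      have h4 : (γ 0 - z₀) * w = z - z₀ := by
        rw [hw]
        field_simp
      rw [h4] at h3
      exact sub_left_injective h3
  · intro x hx y hy hxy
    have h1 : tangent γ x = tangent γ y := by
      have h2 : -Complex.I * tangent γ x / (κ : ℂ) = -Complex.I * tangent γ y / (κ : ℂ) := by
        rw [← hz x, ← hz y, hxy]
      have h3 := (div_left_inj' hκ').mp h2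
      exact mul_left_cancel₀ (neg_ne_zero.mpr Complex.I_ne_zero) h3
    rw [htan x, htan y] at h1
    have h2 := mul_left_cancel₀ hτ0 h1
    rw [Complex.exp_eq_exp_iff_exists_int] at h2
    obtain ⟨n, hn⟩ := h2
    have h3 : ((κ * sig γ x : ℝ) : ℂ) * Complex.I
        = ((κ * sig γ y + 2 * Real.pi * n : ℝ) : ℂ) * Complex.I := by
      rw [hn]
      push_cast
      ring
    have h4 : κ * sig γ x = κ * sig γ y + 2 * Real.pi * n := by
      have := mul_right_cancel₀ Complex.I_ne_zero h3
      exact_mod_cast this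
    have hmono := strictMono_sig h
    have hx0 : 0 ≤ sig γ x := by
      rw [← sig_zero (γ := γ)]
      exact hmono.monotone hx.1
    have hy0 : 0 ≤ sig γ y := by
      rw [← sig_zero (γ := γ)]
      exact hmono.monotone hy.1
    have hx1 : sig γ x < len γ := by
      rw [← sig_one]
      exact hmono hx.2
    have hy1 : sig γ y < len γ := by
      rw [← sig_one]
      exact hmono hy.2
    have h5 : |sig γ x - sig γ y| < len γ := by
      rw [abs_lt]
      constructor <;> linarith
    have h6 : |2 * Real.pi * (n : ℝ)| < 2 * Real.pi := by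
      have e1 : 2 * Real.pi * (n : ℝ) = κ * (sig γ x - sig γ y) := by linarith
      rw [e1, abs_mul]
      calc |κ| * |sig γ x - sig γ y| < |κ| * len γ :=
            mul_lt_mul_of_pos_left h5 (abs_pos.mpr hκ)
        _ = |κ * len γ| := by rw [abs_mul, abs_of_pos hL]
        _ = 2 * Real.pi * |(m : ℝ)| := by
            rw [hm, abs_mul, abs_of_pos (by positivity : (0 : ℝ) < 2 * Real.pi)]
        _ ≤ 2 * Real.pi * 1 := mul_le_mul_of_nonneg_left hmabs (by positivity)
        _ = 2 * Real.pi := mul_one _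
    have h7 : |(n : ℝ)| < 1 := by
      rw [abs_mul, abs_of_pos (by positivity : (0 : ℝ) < 2 * Real.pi)] at h6
      have hpi : (0 : ℝ) < 2 * Real.pi := by positivity
      by_contra hc
      push Not at hc
      nlinarith
    have h8 : n = 0 := by
      have : |n| < 1 := by exact_mod_cast h7
      exact Int.abs_lt_one_iff.mp this
    rw [h8] at h4
    have h9 : sig γ x = sig γ y := by
      have : κ * sig γ x = κ * sig γ y := by simpa using h4
      exact mul_left_cancel₀ hκ this
    exact hmono.injective h9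

end Pool.Agent.H776R3.CDF
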