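import Mathlib

/-!
# Curve diffusion flow of closed plane curves: definitions

The plane `ℝ²` is identified with `ℂ`, the circle with `ℝ/ℤ`.
-/

open Set Filter Topology ComplexConjugate
open scoped ContDiff

namespace Pool.Agent.H776R3.CDF

/-- A smooth closed immersed plane curve: a smooth `1`-periodic map `ℝ → ℂ = ℝ²` whose derivative
vanishes nowhere. -/
structure IsClosedCurve (γ : ℝ → ℂ) : Prop where
  smooth : ContDiff ℝ ∞ γ
  periodic : Function.Periodic γ 1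
  immersed : ∀ x, deriv γ x ≠ 0

/-- The unit tangent `τ = γ' / |γ'|`. -/
noncomputable def tangent (γ : ℝ → ℂ) (x : ℝ) : ℂ := deriv γ x / (‖deriv γ x‖ : ℂ)

/-- The unit normal `ν = i τ` (the tangent turned counterclockwise by a right angle). -/
noncomputable def normal (γ : ℝ → ℂ) (x : ℝ) : ℂ := Complex.I * tangent γ x

/-- The derivative `∂ₛ f = f' / |γ'|` of a function `f` with respect to arc length of `γ`. -/
noncomputable def arcDeriv (γ : ℝ → ℂ) (f : ℝ → ℝ) (x : ℝ) : ℝ := deriv f x / ‖deriv γ x‖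

/-- The signed curvature `k = ⟨∂ₛ τ, ν⟩`, so that `∂ₛ τ = k ν`; the Euclidean inner product of
`z` and `w` is the real part of `conj z * w`. -/
noncomputable def curvature (γ : ℝ → ℂ) (x : ℝ) : ℝ :=
  (conj (normal γ x) * deriv (tangent γ) x).re / ‖deriv γ x‖

/-- `u` is a smooth solution on `[0, T)` (with `0 < T ≤ ∞`) of the curve diffusion flow
`∂ₜ γ = - kₛₛ ν` with initial curve `η`: each `u t` is a smooth closed immersed curve, `u` is
smooth on `[0, T) × ℝ`, `u 0 = η`, and the equation holds at all times `0 < t < T`. -/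
structure IsCDFSolution (u : ℝ → ℝ → ℂ) (η : ℝ → ℂ) (T : EReal) : Prop where
  pos : 0 < T
  initial : u 0 = η
  curve : ∀ t : ℝ, 0 ≤ t → (t : EReal) < T → IsClosedCurve (u t)
  smooth : ContDiffOn ℝ ∞ (fun p : ℝ × ℝ => u p.1 p.2) {p | 0 ≤ p.1 ∧ (p.1 : EReal) < T}
  flow : ∀ t x : ℝ, 0 < t → (t : EReal) < T →
    HasDerivAt (fun s => u s x)
      (-(arcDeriv (u t) (arcDeriv (u t) (curvature (u t))) x : ℂ) * normal (u t) x) t

/-- `u` is the solution with initial curve `η` on its maximal interval of existence `[0, T)`. -/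
def IsMaximalCDFSolution (u : ℝ → ℝ → ℂ) (η : ℝ → ℂ) (T : EReal) : Prop :=
  IsCDFSolution u η T ∧ ∀ (T' : EReal) (v : ℝ → ℝ → ℂ), IsCDFSolution v η T' → T' ≤ T

/-- Similarity transformations of the plane: `z ↦ a z + b` or `z ↦ a (conj z) + b`, `a ≠ 0`. -/
def IsSimilarity (S : ℂ → ℂ) : Prop :=
  ∃ a b : ℂ, a ≠ 0 ∧ ((∀ z, S z = a * z + b) ∨ (∀ z, S z = a * conj z + b))

/-- Lifts to `ℝ` of diffeomorphisms of the circle `ℝ/ℤ`, of either orientation. -/
def IsReparam (φ : ℝ → ℝ) : Prop :=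
  ContDiff ℝ ∞ φ ∧
    (((∀ x, 0 < deriv φ x) ∧ ∀ x, φ (x + 1) = φ x + 1) ∨
      ((∀ x, deriv φ x < 0) ∧ ∀ x, φ (x + 1) = φ x - 1))

/-- `u t` converges modulo similarity to `γ` as `t → T`: for suitable similarity transformations
`S t` and reparametrisations `φ t`, the curves `S t ∘ u t ∘ φ t` converge to `γ` uniformly with
all derivatives as `t → T`. -/
def ConvergesModSimilarity (u : ℝ → ℝ → ℂ) (T : EReal) (γ : ℝ → ℂ) : Prop :=
  ∃ (S : ℝ → ℂ → ℂ) (φ : ℝ → ℝ → ℝ), (∀ t, IsSimilarity (S t)) ∧ (∀ t, IsReparam (φ t)) ∧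
    ∀ k : ℕ, ∀ ε : ℝ, 0 < ε → ∃ t₀ : ℝ, 0 ≤ t₀ ∧ (t₀ : EReal) < T ∧
      ∀ t : ℝ, t₀ ≤ t → (t : EReal) < T → ∀ x : ℝ,
        ‖iteratedDeriv k (fun y => S t (u t (φ t y))) x - iteratedDeriv k γ x‖ < ε

/-- `η` lies in the basic `C^∞` neighbourhood of `γ` given by `K` and `ε`: all derivatives of
order at most `K` of `η - γ` are smaller than `ε`. -/
def CInftyClose (K : ℕ) (ε : ℝ) (γ η : ℝ → ℂ) : Prop :=
  ∀ k : ℕ, k ≤ K → ∀ x : ℝ, ‖iteratedDeriv k η x - iteratedDeriv k γ x‖ < ε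

/-- `γ` is dynamically stable for the curve diffusion flow: for all closed curves `η` in some
`C^∞` neighbourhood of `γ`, the (maximal) solution with initial curve `η` converges modulo
similarity to `γ`. -/
def DynamicallyStableCDF (γ : ℝ → ℂ) : Prop :=
  ∃ K : ℕ, ∃ ε : ℝ, 0 < ε ∧ ∀ η : ℝ → ℂ, IsClosedCurve η → CInftyClose K ε γ η →
    ∃ (T : EReal) (u : ℝ → ℝ → ℂ), IsMaximalCDFSolution u η T ∧ ConvergesModSimilarity u T γ

/-- The closed curve `γ` is a round circle traversed once: it lies on a circle of radius `r > 0`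
about `c`, and is injective on a period. -/
def IsCircleTraversedOnce (γ : ℝ → ℂ) : Prop :=
  ∃ (c : ℂ) (r : ℝ), 0 < r ∧ Set.range γ = {z | ‖z - c‖ = r} ∧ Set.InjOn γ (Set.Ico 0 1)

end Pool.Agent.H776R3.CDF
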