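import Pool.Agent.H776R3.CDF.Func

open Set Filter Topology ComplexConjugate MeasureTheory
open scoped ContDiff Interval

namespace Pool.Agent.H776R3.CDF

variable {γ : ℝ → ℂ}

/-- The integral of the derivative of a smooth periodic function over a period vanishes. -/
lemma integral_deriv_periodic {f : ℝ → ℝ} (hf : ContDiff ℝ ∞ f) (hp : Function.Periodic f 1) :
    ∫ x in (0 : ℝ)..1, deriv f x = 0 := by
  have hd : ∀ x, HasDerivAt f (deriv f x) x :=
    fun x => ((hf.differentiable (by simp)) x).hasDerivAt
  rw [intervalIntegral.integral_eq_sub_of_hasDerivAt (fun x _ => hd x)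
    ((contDiff_deriv' hf).continuous.intervalIntegrable _ _)]
  have := hp 0
  rw [zero_add] at this
  rw [this, sub_self]

/-- velocity -/
noncomputable def vel (γ : ℝ → ℂ) (x : ℝ) : ℂ :=
  -(arcDeriv γ (arcDeriv γ (curvature γ)) x : ℂ) * normal γ x

lemma contDiff_vel (h : IsClosedCurve γ) : ContDiff ℝ ∞ (vel γ) := by
  unfold vel
  exact (ofReal_contDiff (contDiff_arcDeriv h (contDiff_arcDeriv h h.contDiff_curvature))).neg.mul
    h.contDiff_normal

lemma periodic_vel (h : IsClosedCurve γ) : Function.Periodic (vel γ) 1 := by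
  intro x
  unfold vel
  rw [h.periodic_normal x,
    periodic_arcDeriv h (periodic_arcDeriv h h.periodic_curvature) x]

lemma hasDerivAt_of_contDiff {E : Type*} [NormedAddCommGroup E] [NormedSpace ℝ E] {f : ℝ → E}
    (hf : ContDiff ℝ ∞ f) (x : ℝ) : HasDerivAt f (deriv f x) x :=
  ((hf.differentiable (by simp)) x).hasDerivAt

lemma hasDerivAt_re {f : ℝ → ℂ} {d : ℂ} {x : ℝ} (hf : HasDerivAt f d x) :
    HasDerivAt (fun y => (f y).re) d.re x := by
  have := Complex.reCLM.hasFDerivAt.comp_hasDerivAt x hf
  simpa [Function.comp_def] using this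

lemma hasDerivAt_im {f : ℝ → ℂ} {d : ℂ} {x : ℝ} (hf : HasDerivAt f d x) :
    HasDerivAt (fun y => (f y).im) d.im x := by
  have := Complex.imCLM.hasFDerivAt.comp_hasDerivAt x hf
  simpa [Function.comp_def] using this

/-- integration by parts for the real part -/
lemma parts_re {f g : ℝ → ℂ} (hf : ContDiff ℝ ∞ f) (hg : ContDiff ℝ ∞ g)
    (hpf : Function.Periodic f 1) (hpg : Function.Periodic g 1) :
    ∫ x in (0 : ℝ)..1, (conj (f x) * deriv g x).re
      = -∫ x in (0 : ℝ)..1, (conj (deriv f x) * g x).re := by
  have hprod : ContDiff ℝ ∞ (fun x => (conj (f x) * g x).re) :=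
    re_contDiff ((conj_contDiff hf).mul hg)
  have hper : Function.Periodic (fun x => (conj (f x) * g x).re) 1 := by
    intro x
    simp only [hpf x, hpg x]
  have h0 := integral_deriv_periodic hprod hper
  have hd : ∀ x, deriv (fun x => (conj (f x) * g x).re) x
      = (conj (deriv f x) * g x).re + (conj (f x) * deriv g x).re := by
    intro x
    have := hasDerivAt_re ((hasDerivAt_conj (hasDerivAt_of_contDiff hf x)).mul
      (hasDerivAt_of_contDiff hg x))
    rw [Complex.add_re] at this
    exact this.deriv
  simp_rw [hd] at h0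
  rw [intervalIntegral.integral_add] at h0
  · linarith
  · exact (Complex.continuous_re.comp ((Complex.continuous_conj.comp
      (contDiff_deriv' hf).continuous).mul hg.continuous)).intervalIntegrable _ _
  · exact (Complex.continuous_re.comp ((Complex.continuous_conj.comp
      hf.continuous).mul (contDiff_deriv' hg).continuous)).intervalIntegrable _ _

lemma parts_im {f g : ℝ → ℂ} (hf : ContDiff ℝ ∞ f) (hg : ContDiff ℝ ∞ g)
    (hpf : Function.Periodic f 1) (hpg : Function.Periodic g 1) :
    ∫ x in (0 : ℝ)..1, (conj (f x) * deriv g x).im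
      = -∫ x in (0 : ℝ)..1, (conj (deriv f x) * g x).im := by
  have hprod : ContDiff ℝ ∞ (fun x => (conj (f x) * g x).im) :=
    im_contDiff ((conj_contDiff hf).mul hg)
  have hper : Function.Periodic (fun x => (conj (f x) * g x).im) 1 := by
    intro x
    simp only [hpf x, hpg x]
  have h0 := integral_deriv_periodic hprod hper
  have hd : ∀ x, deriv (fun x => (conj (f x) * g x).im) x
      = (conj (deriv f x) * g x).im + (conj (f x) * deriv g x).im := by
    intro x
    have := hasDerivAt_im ((hasDerivAt_conj (hasDerivAt_of_contDiff hf x)).mul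
      (hasDerivAt_of_contDiff hg x))
    rw [Complex.add_im] at this
    exact this.deriv
  simp_rw [hd] at h0
  rw [intervalIntegral.integral_add] at h0
  · linarith
  · exact (Complex.continuous_im.comp ((Complex.continuous_conj.comp
      (contDiff_deriv' hf).continuous).mul hg.continuous)).intervalIntegrable _ _
  · exact (Complex.continuous_im.comp ((Complex.continuous_conj.comp
      hf.continuous).mul (contDiff_deriv' hg).continuous)).intervalIntegrable _ _

lemma norm_mul_arcDeriv (h : IsClosedCurve γ) (f : ℝ → ℝ) (x : ℝ) :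
    arcDeriv γ f x * ‖deriv γ x‖ = deriv f x := by
  unfold arcDeriv
  rw [div_mul_cancel₀ _ (h.norm_pos x).ne']

lemma conj_mul_self_eq {z : ℂ} (hz : ‖z‖ = 1) : conj z * z = 1 := by
  rw [mul_comm, Complex.mul_conj, Complex.normSq_eq_norm_sq, hz]
  simp

lemma IsClosedCurve.norm_normal (h : IsClosedCurve γ) (x : ℝ) : ‖normal γ x‖ = 1 := by
  unfold normal
  rw [norm_mul, Complex.norm_I, h.norm_tangent x, one_mul]

/-- The first variation of length along the velocity of the flow is nonpositive. -/
lemma len_variation (h : IsClosedCurve γ) :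
    ∫ x in (0 : ℝ)..1, (conj (tangent γ x) * deriv (vel γ) x).re ≤ 0 := by
  rw [parts_re h.contDiff_tangent (contDiff_vel h) h.periodic_tangent (periodic_vel h)]
  have e : ∀ x, (conj (deriv (tangent γ) x) * vel γ x).re
      = -(curvature γ x * deriv (arcDeriv γ (curvature γ)) x) := by
    intro x
    rw [h.deriv_tangent x]
    unfold vel
    have h1 : conj (((curvature γ x * ‖deriv γ x‖ : ℝ) : ℂ) * normal γ x)
        * (-(arcDeriv γ (arcDeriv γ (curvature γ)) x : ℂ) * normal γ x)
        = ((-(curvature γ x * (arcDeriv γ (arcDeriv γ (curvature γ)) x * ‖deriv γ x‖)) : ℝ) : ℂ)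
          * (conj (normal γ x) * normal γ x) := by
      rw [map_mul, Complex.conj_ofReal]
      push_cast
      ring
    rw [h1, conj_mul_self_eq (h.norm_normal x), mul_one, Complex.ofReal_re,
      norm_mul_arcDeriv h]
  simp_rw [e]
  rw [intervalIntegral.integral_neg, neg_neg]
  -- integrate by parts again
  set k := curvature γ with hk
  set ks := arcDeriv γ k with hks
  have hkc : ContDiff ℝ ∞ k := h.contDiff_curvature
  have hksc : ContDiff ℝ ∞ ks := contDiff_arcDeriv h hkc
  have hkp : Function.Periodic k 1 := h.periodic_curvature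
  have hksp : Function.Periodic ks 1 := periodic_arcDeriv h hkp
  have h0 := integral_deriv_periodic (hkc.mul hksc) (by
    intro x
    simp only [hkp x, hksp x])
  have hd : ∀ x, deriv (fun x => k x * ks x) x = deriv k x * ks x + k x * deriv ks x := by
    intro x
    exact ((hasDerivAt_of_contDiff hkc x).mul (hasDerivAt_of_contDiff hksc x)).deriv
  simp_rw [hd] at h0
  have hi1 : IntervalIntegrable (fun x => deriv k x * ks x) volume 0 1 :=
    ((contDiff_deriv' hkc).continuous.mul hksc.continuous).intervalIntegrable _ _
  have hi2 : IntervalIntegrable (fun x => k x * deriv ks x) volume 0 1 :=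
    (hkc.continuous.mul (contDiff_deriv' hksc).continuous).intervalIntegrable _ _
  rw [intervalIntegral.integral_add hi1 hi2] at h0
  have hnn : 0 ≤ ∫ x in (0 : ℝ)..1, deriv k x * ks x := by
    apply intervalIntegral.integral_nonneg (by norm_num)
    intro x _
    have : deriv k x = ks x * ‖deriv γ x‖ := by
      rw [hks, norm_mul_arcDeriv h]
    rw [this]
    have : ks x * ‖deriv γ x‖ * ks x = ks x ^ 2 * ‖deriv γ x‖ := by ring
    rw [this]
    positivity
  linarith

/-- The first variation of area along the velocity of the flow vanishes. -/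
lemma area_variation (h : IsClosedCurve γ) :
    ∫ x in (0 : ℝ)..1, (conj (vel γ x) * deriv γ x + conj (γ x) * deriv (vel γ) x).im = 0 := by
  have hc1 : Continuous (fun x => (conj (vel γ x) * deriv γ x).im) :=
    Complex.continuous_im.comp ((Complex.continuous_conj.comp
      (contDiff_vel h).continuous).mul h.continuous_deriv)
  have hc2 : Continuous (fun x => (conj (γ x) * deriv (vel γ) x).im) :=
    Complex.continuous_im.comp ((Complex.continuous_conj.comp
      h.continuous).mul (contDiff_deriv' (contDiff_vel h)).continuous)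
  simp_rw [Complex.add_im]
  rw [intervalIntegral.integral_add (hc1.intervalIntegrable _ _) (hc2.intervalIntegrable _ _),
    parts_im h.smooth (contDiff_vel h) h.periodic (periodic_vel h)]
  have e1 : ∀ x, (conj (deriv γ x) * vel γ x).im = -(conj (vel γ x) * deriv γ x).im := by
    intro x
    rw [← Complex.conj_im, map_mul, Complex.conj_conj, mul_comm]
  simp_rw [e1]
  rw [intervalIntegral.integral_neg, neg_neg]
  have e2 : ∀ x, (conj (vel γ x) * deriv γ x).im = deriv (arcDeriv γ (curvature γ)) x := by
    intro x
    rw [← norm_mul_arcDeriv h (arcDeriv γ (curvature γ)) x]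
    unfold vel normal
    have h2 : conj (-(arcDeriv γ (arcDeriv γ (curvature γ)) x : ℂ) * (Complex.I * tangent γ x))
        * deriv γ x = ((arcDeriv γ (arcDeriv γ (curvature γ)) x * ‖deriv γ x‖ : ℝ) : ℂ)
          * (conj (tangent γ x) * tangent γ x) * Complex.I := by
      conv_lhs => rw [h.deriv_eq x]
      rw [map_mul, map_mul, map_neg, Complex.conj_ofReal, Complex.conj_I]
      push_cast
      ring
    rw [h2, conj_mul_self_eq (h.norm_tangent x), mul_one, Complex.mul_I_im, Complex.ofReal_re]
  simp_rw [e2]
  rw [integral_deriv_periodic (contDiff_arcDeriv h h.contDiff_curvature)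
    (periodic_arcDeriv h h.periodic_curvature)]
  simp

end Pool.Agent.H776R3.CDF
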