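import Pool.Agent.H776R3.CDF.Geom

open Set Filter Topology ComplexConjugate MeasureTheory
open scoped ContDiff Interval

namespace Pool.Agent.H776R3.CDF

/-- length -/
noncomputable def len (γ : ℝ → ℂ) : ℝ := ∫ x in (0 : ℝ)..1, ‖deriv γ x‖

/-- signed area -/
noncomputable def area (γ : ℝ → ℂ) : ℝ := (1 / 2) * ∫ x in (0 : ℝ)..1, (conj (γ x) * deriv γ x).im

variable {γ : ℝ → ℂ}

lemma IsClosedCurve.continuous (h : IsClosedCurve γ) : Continuous γ := h.smooth.continuous

lemma IsClosedCurve.continuous_deriv (h : IsClosedCurve γ) : Continuous (deriv γ) :=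
  h.contDiff_deriv.continuous

lemma len_pos (h : IsClosedCurve γ) : 0 < len γ := by
  unfold len
  apply intervalIntegral.intervalIntegral_pos_of_pos_on
  · exact (h.continuous_deriv.norm).intervalIntegrable _ _
  · intro x _
    exact h.norm_pos x
  · norm_num

lemma IsClosedCurve.integral_deriv (h : IsClosedCurve γ) :
    ∫ x in (0 : ℝ)..1, deriv γ x = 0 := by
  rw [intervalIntegral.integral_eq_sub_of_hasDerivAt (fun x _ => h.hasDerivAt x)
    (h.continuous_deriv.intervalIntegrable _ _)]
  have := h.periodic 0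
  rw [zero_add] at this
  rw [this, sub_self]

lemma IsClosedCurve.affine (h : IsClosedCurve γ) {a : ℂ} (ha : a ≠ 0) (b : ℂ) :
    IsClosedCurve (fun y => a * γ y + b) := by
  refine ⟨(contDiff_const.mul h.smooth).add contDiff_const, fun x => ?_, fun x => ?_⟩
  · simp only [h.periodic x]
  · have : HasDerivAt (fun y => a * γ y + b) (a * deriv γ x) x :=
      ((h.hasDerivAt x).const_mul a).add_const b
    rw [this.deriv]
    exact mul_ne_zero ha (h.immersed x)

lemma deriv_affine (h : IsClosedCurve γ) (a b : ℂ) (x : ℝ) :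
    deriv (fun y => a * γ y + b) x = a * deriv γ x :=
  (((h.hasDerivAt x).const_mul a).add_const b).deriv

lemma len_affine (h : IsClosedCurve γ) (a b : ℂ) :
    len (fun y => a * γ y + b) = ‖a‖ * len γ := by
  unfold len
  rw [← intervalIntegral.integral_const_mul]
  congr 1
  funext x
  rw [deriv_affine h, norm_mul]

lemma area_affine (h : IsClosedCurve γ) (a b : ℂ) :
    area (fun y => a * γ y + b) = ‖a‖ ^ 2 * area γ := by
  unfold area
  have hc : Continuous (fun x => (conj (γ x) * deriv γ x)) :=
    (Complex.continuous_conj.comp h.continuous).mul h.continuous_deriv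
  have key : ∀ x, (conj (a * γ x + b) * deriv (fun y => a * γ y + b) x).im
      = ‖a‖ ^ 2 * (conj (γ x) * deriv γ x).im + (conj b * a * deriv γ x).im := by
    intro x
    rw [deriv_affine h]
    have : conj (a * γ x + b) * (a * deriv γ x)
        = ((‖a‖ ^ 2 : ℝ) : ℂ) * (conj (γ x) * deriv γ x) + conj b * a * deriv γ x := by
      rw [← Complex.normSq_eq_norm_sq, ← Complex.mul_conj]
      simp only [map_add, map_mul]
      ring
    rw [this, Complex.add_im, Complex.im_ofReal_mul]
  simp_rw [key]
  rw [intervalIntegral.integral_add, intervalIntegral.integral_const_mul]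
  · have h2 : ∫ x in (0 : ℝ)..1, (conj b * a * deriv γ x).im = 0 := by
      have h3 : ∫ x in (0 : ℝ)..1, (conj b * a * deriv γ x) = 0 := by
        rw [intervalIntegral.integral_const_mul, h.integral_deriv, mul_zero]
      have h4 := Complex.imCLM.intervalIntegral_comp_comm
        (μ := volume) (a := 0) (b := 1) (f := fun x => conj b * a * deriv γ x)
        ((continuous_const.mul h.continuous_deriv).intervalIntegrable _ _)
      simp only [Complex.imCLM_apply] at h4
      rw [h4, h3, Complex.zero_im]
    rw [h2]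
    ring
  · exact (continuous_const.mul (Complex.continuous_im.comp hc)).intervalIntegrable _ _
  · exact (Complex.continuous_im.comp
      (continuous_const.mul h.continuous_deriv)).intervalIntegrable _ _

lemma hasDerivAt_conj {f : ℝ → ℂ} {d : ℂ} {x : ℝ} (hf : HasDerivAt f d x) :
    HasDerivAt (fun y => conj (f y)) (conj d) x := hf.star

lemma IsClosedCurve.conj (h : IsClosedCurve γ) : IsClosedCurve (fun y => conj (γ y)) := by
  refine ⟨conj_contDiff h.smooth, fun x => ?_, fun x => ?_⟩
  · simp only [h.periodic x]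
  · rw [(hasDerivAt_conj (h.hasDerivAt x)).deriv]
    simpa using h.immersed x

lemma len_conj (h : IsClosedCurve γ) : len (fun y => conj (γ y)) = len γ := by
  unfold len
  congr 1
  funext x
  rw [(hasDerivAt_conj (h.hasDerivAt x)).deriv]
  simp

lemma area_conj (h : IsClosedCurve γ) : area (fun y => conj (γ y)) = -area γ := by
  unfold area
  have key : ∀ x, (conj (conj (γ x)) * deriv (fun y => conj (γ y)) x).im
      = -(conj (γ x) * deriv γ x).im := by
    intro x
    rw [(hasDerivAt_conj (h.hasDerivAt x)).deriv, ← map_mul, Complex.conj_im]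
  simp_rw [key]
  rw [intervalIntegral.integral_neg]
  ring

lemma IsReparam.hasDerivAt {φ : ℝ → ℝ} (hφ : IsReparam φ) (x : ℝ) :
    HasDerivAt φ (deriv φ x) x :=
  ((hφ.1.differentiable (by simp)) x).hasDerivAt

lemma hasDerivAt_reparam (h : IsClosedCurve γ) {φ : ℝ → ℝ} (hφ : IsReparam φ) (x : ℝ) :
    HasDerivAt (fun y => γ (φ y)) (((deriv φ x : ℝ) : ℂ) * deriv γ (φ x)) x := by
  have := (h.hasDerivAt (φ x)).scomp x (hφ.hasDerivAt x)
  simpa [Function.comp_def, Complex.real_smul] using this

lemma IsClosedCurve.reparam (h : IsClosedCurve γ) {φ : ℝ → ℝ} (hφ : IsReparam φ) :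
    IsClosedCurve (fun y => γ (φ y)) := by
  refine ⟨h.smooth.comp hφ.1, fun x => ?_, fun x => ?_⟩
  · rcases hφ.2 with ⟨_, h2⟩ | ⟨_, h2⟩
    · simp only [h2 x, h.periodic (φ x)]
    · simp only [h2 x, h.periodic.sub_eq (φ x)]
  · rw [(hasDerivAt_reparam h hφ x).deriv]
    refine mul_ne_zero ?_ (h.immersed _)
    rcases hφ.2 with ⟨h1, _⟩ | ⟨h1, _⟩
    · exact_mod_cast (h1 x).ne'
    · exact_mod_cast (h1 x).ne

lemma len_reparam (h : IsClosedCurve γ) {φ : ℝ → ℝ} (hφ : IsReparam φ) :
    len (fun y => γ (φ y)) = len γ := by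
  unfold len
  have hcd : Continuous (deriv φ) := (contDiff_deriv' hφ.1).continuous
  have hper : Function.Periodic (fun x => ‖deriv γ x‖) 1 := by
    intro x
    simp only [periodic_deriv h.periodic x]
  have hch := intervalIntegral.integral_comp_mul_deriv (a := 0) (b := 1) (f := φ)
    (f' := deriv φ) (g := fun y => ‖deriv γ y‖) (fun x _ => hφ.hasDerivAt x)
    hcd.continuousOn h.continuous_deriv.norm
  simp only [Function.comp_def] at hch
  rcases hφ.2 with ⟨h1, h2⟩ | ⟨h1, h2⟩
  · have e : ∀ x, ‖deriv (fun y => γ (φ y)) x‖ = ‖deriv γ (φ x)‖ * deriv φ x := by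
      intro x
      rw [(hasDerivAt_reparam h hφ x).deriv, norm_mul, Complex.norm_real, Real.norm_eq_abs,
        abs_of_pos (h1 x), mul_comm]
    simp_rw [e]
    rw [hch]
    have h20 := h2 0
    rw [zero_add] at h20
    rw [h20, hper.intervalIntegral_add_eq (φ 0) 0, zero_add]
  · have e : ∀ x, ‖deriv (fun y => γ (φ y)) x‖ = -(‖deriv γ (φ x)‖ * deriv φ x) := by
      intro x
      rw [(hasDerivAt_reparam h hφ x).deriv, norm_mul, Complex.norm_real, Real.norm_eq_abs,
        abs_of_neg (h1 x)]
      ring
    simp_rw [e]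
    rw [intervalIntegral.integral_neg, hch]
    have h20 := h2 0
    rw [zero_add] at h20
    rw [h20, ← intervalIntegral.integral_symm]
    have := hper.intervalIntegral_add_eq (φ 0 - 1) 0
    rw [sub_add_cancel, zero_add] at this
    exact this

lemma area_reparam (h : IsClosedCurve γ) {φ : ℝ → ℝ} (hφ : IsReparam φ) :
    |area (fun y => γ (φ y))| = |area γ| := by
  unfold area
  have hcd : Continuous (deriv φ) := (contDiff_deriv' hφ.1).continuous
  have hper : Function.Periodic (fun x => (conj (γ x) * deriv γ x).im) 1 := by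
    intro x
    simp only [periodic_deriv h.periodic x, h.periodic x]
  have hcont : Continuous (fun x => (conj (γ x) * deriv γ x).im) :=
    Complex.continuous_im.comp
      ((Complex.continuous_conj.comp h.continuous).mul h.continuous_deriv)
  have hch := intervalIntegral.integral_comp_mul_deriv (a := 0) (b := 1) (f := φ)
    (f' := deriv φ) (g := fun x => (conj (γ x) * deriv γ x).im) (fun x _ => hφ.hasDerivAt x)
    hcd.continuousOn hcont
  simp only [Function.comp_def] at hch
  have e : ∀ x, (conj (γ (φ x)) * deriv (fun y => γ (φ y)) x).im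
      = (conj (γ (φ x)) * deriv γ (φ x)).im * deriv φ x := by
    intro x
    rw [(hasDerivAt_reparam h hφ x).deriv]
    have : conj (γ (φ x)) * (((deriv φ x : ℝ) : ℂ) * deriv γ (φ x))
        = ((deriv φ x : ℝ) : ℂ) * (conj (γ (φ x)) * deriv γ (φ x)) := by ring
    rw [this, Complex.im_ofReal_mul, mul_comm]
  simp_rw [e]
  rw [hch]
  rcases hφ.2 with ⟨h1, h2⟩ | ⟨h1, h2⟩
  · have h20 := h2 0
    rw [zero_add] at h20
    rw [h20, hper.intervalIntegral_add_eq (φ 0) 0, zero_add]
  · have h20 := h2 0
    rw [zero_add] at h20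
    rw [h20, intervalIntegral.integral_symm]
    have := hper.intervalIntegral_add_eq (φ 0 - 1) 0
    rw [sub_add_cancel, zero_add] at this
    rw [this, mul_neg, abs_neg]

/-- Similarities and reparametrisations rescale length and area. -/
lemma similar (h : IsClosedCurve γ) {S : ℂ → ℂ} (hS : IsSimilarity S) {φ : ℝ → ℝ}
    (hφ : IsReparam φ) : ∃ ρ : ℝ, 0 < ρ ∧ IsClosedCurve (fun y => S (γ (φ y))) ∧
      len (fun y => S (γ (φ y))) = ρ * len γ ∧
      |area (fun y => S (γ (φ y)))| = ρ ^ 2 * |area γ| := by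
  obtain ⟨a, b, ha, hS⟩ := hS
  have hr := h.reparam hφ
  refine ⟨‖a‖, norm_pos_iff.mpr ha, ?_⟩
  rcases hS with hS | hS
  · have e : (fun y => S (γ (φ y))) = fun y => a * (fun z => γ (φ z)) y + b := by
      funext y
      simp [hS]
    rw [e]
    refine ⟨hr.affine ha b, ?_, ?_⟩
    · rw [len_affine hr, len_reparam h hφ]
    · rw [area_affine hr, abs_mul, area_reparam h hφ, abs_of_nonneg (by positivity)]
  · have e : (fun y => S (γ (φ y))) = fun y => a * (fun z => conj ((fun w => γ (φ w)) z)) y + b := by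
      funext y
      simp [hS]
    rw [e]
    refine ⟨hr.conj.affine ha b, ?_, ?_⟩
    · rw [len_affine hr.conj, len_conj hr, len_reparam h hφ]
    · rw [area_affine hr.conj, abs_mul, area_conj hr, abs_neg, area_reparam h hφ,
        abs_of_nonneg (by positivity)]

/-- Length and area are continuous for `C¹` convergence. -/
lemma tendsto_len {w : ℕ → ℝ → ℂ} (h : IsClosedCurve γ) (hw : ∀ n, IsClosedCurve (w n))
    {e : ℕ → ℝ} (he : Tendsto e atTop (𝓝 0))
    (h1 : ∀ n x, ‖deriv (w n) x - deriv γ x‖ ≤ e n) :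
    Tendsto (fun n => len (w n)) atTop (𝓝 (len γ)) := by
  rw [tendsto_iff_norm_sub_tendsto_zero]
  refine squeeze_zero (fun n => norm_nonneg _) (fun n => ?_) he
  unfold len
  rw [← intervalIntegral.integral_sub ((hw n).continuous_deriv.norm.intervalIntegrable _ _)
    (h.continuous_deriv.norm.intervalIntegrable _ _)]
  have := intervalIntegral.norm_integral_le_of_norm_le_const (a := (0 : ℝ)) (b := 1) (C := e n)
    (f := fun x => ‖deriv (w n) x‖ - ‖deriv γ x‖) (fun x _ => by
      rw [Real.norm_eq_abs]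
      exact (abs_norm_sub_norm_le _ _).trans (h1 n x))
  simpa using this

lemma periodic_bounded {f : ℝ → ℂ} (hf : Continuous f) (hp : Function.Periodic f 1) :
    ∃ M : ℝ, 0 ≤ M ∧ ∀ x, ‖f x‖ ≤ M := by
  obtain ⟨M, hM⟩ := (isCompact_Icc (a := (0 : ℝ)) (b := 1)).exists_bound_of_continuousOn
    hf.continuousOn
  refine ⟨M, (norm_nonneg _).trans (hM 0 (by simp)), fun x => ?_⟩
  obtain ⟨y, hy, hxy⟩ := hp.exists_mem_Ico₀ (by norm_num) x
  rw [hxy]
  exact hM y ⟨hy.1, hy.2.le⟩

lemma tendsto_area {w : ℕ → ℝ → ℂ} (h : IsClosedCurve γ) (hw : ∀ n, IsClosedCurve (w n))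
    {e : ℕ → ℝ} (he : Tendsto e atTop (𝓝 0))
    (h0 : ∀ n x, ‖w n x - γ x‖ ≤ e n) (h1 : ∀ n x, ‖deriv (w n) x - deriv γ x‖ ≤ e n) :
    Tendsto (fun n => area (w n)) atTop (𝓝 (area γ)) := by
  obtain ⟨M, hM0, hM⟩ := periodic_bounded h.continuous h.periodic
  obtain ⟨M', hM'0, hM'⟩ := periodic_bounded h.continuous_deriv (periodic_deriv h.periodic)
  have he' : Tendsto (fun n => (1 / 2) * (e n * (M' + e n) + M * e n)) atTop (𝓝 0) := by
    have h1' : Tendsto (fun n => M' + e n) atTop (𝓝 (M' + 0)) := he.const_add M'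
    have h2' : Tendsto (fun n => M * e n) atTop (𝓝 (M * 0)) := he.const_mul M
    have h3' := (((he.mul h1').add h2').const_mul (1 / 2))
    simpa using h3'
  rw [tendsto_iff_norm_sub_tendsto_zero]
  refine squeeze_zero (fun n => norm_nonneg _) (fun n => ?_) he'
  unfold area
  have hc1 : Continuous (fun x => (conj (w n x) * deriv (w n) x).im) :=
    Complex.continuous_im.comp
      ((Complex.continuous_conj.comp (hw n).continuous).mul (hw n).continuous_deriv)
  have hc2 : Continuous (fun x => (conj (γ x) * deriv γ x).im) :=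
    Complex.continuous_im.comp
      ((Complex.continuous_conj.comp h.continuous).mul h.continuous_deriv)
  rw [← mul_sub, ← intervalIntegral.integral_sub (hc1.intervalIntegrable _ _)
    (hc2.intervalIntegrable _ _), norm_mul]
  have hen : 0 ≤ e n := (norm_nonneg _).trans (h0 n 0)
  have := intervalIntegral.norm_integral_le_of_norm_le_const (a := (0 : ℝ)) (b := 1)
    (C := e n * (M' + e n) + M * e n)
    (f := fun x => (conj (w n x) * deriv (w n) x).im - (conj (γ x) * deriv γ x).im) (fun x _ => by
      rw [← Complex.sub_im, Real.norm_eq_abs]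
      refine (Complex.abs_im_le_norm _).trans ?_
      have e1 : conj (w n x) * deriv (w n) x - conj (γ x) * deriv γ x
          = conj (w n x - γ x) * deriv (w n) x + conj (γ x) * (deriv (w n) x - deriv γ x) := by
        rw [map_sub]
        ring
      rw [e1]
      refine (norm_add_le _ _).trans ?_
      rw [norm_mul, norm_mul, RCLike.norm_conj, RCLike.norm_conj]
      have e2 : ‖deriv (w n) x‖ ≤ M' + e n := by
        have : deriv (w n) x = deriv γ x + (deriv (w n) x - deriv γ x) := by ring
        rw [this]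
        exact (norm_add_le _ _).trans (add_le_add (hM' x) (h1 n x))
      exact add_le_add (mul_le_mul (h0 n x) e2 (norm_nonneg _) hen)
        (mul_le_mul (hM x) (h1 n x) (norm_nonneg _) hM0))
  have h12 : ‖(1 / 2 : ℝ)‖ = 1 / 2 := by norm_num
  rw [h12]
  refine mul_le_mul_of_nonneg_left ?_ (by norm_num)
  simpa using this

end Pool.Agent.H776R3.CDF
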