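import Pool.Agent.H776R3.CDF.Defs

open Set Filter Topology ComplexConjugate
open scoped ContDiff

namespace Pool.Agent.H776R3.CDF

variable {γ : ℝ → ℂ}

lemma IsClosedCurve.contDiff_deriv (h : IsClosedCurve γ) : ContDiff ℝ ∞ (deriv γ) := by
  have := h.smooth
  exact (contDiff_infty_iff_deriv.mp this).2

lemma IsClosedCurve.differentiable (h : IsClosedCurve γ) : Differentiable ℝ γ :=
  h.smooth.differentiable (by simp)

lemma IsClosedCurve.hasDerivAt (h : IsClosedCurve γ) (x : ℝ) : HasDerivAt γ (deriv γ x) x :=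
  (h.differentiable x).hasDerivAt

lemma periodic_deriv {E : Type*} [NormedAddCommGroup E] [NormedSpace ℝ E] {f : ℝ → E} {c : ℝ}
    (hf : Function.Periodic f c) : Function.Periodic (deriv f) c := by
  intro x
  have h1 : (fun y => f (y + c)) = f := funext hf
  have h2 := deriv_comp_add_const f c x
  rw [h1] at h2
  exact h2.symm

lemma IsClosedCurve.norm_pos (h : IsClosedCurve γ) (x : ℝ) : 0 < ‖deriv γ x‖ :=
  norm_pos_iff.mpr (h.immersed x)

lemma IsClosedCurve.contDiff_norm (h : IsClosedCurve γ) : ContDiff ℝ ∞ (fun x => ‖deriv γ x‖) :=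
  h.contDiff_deriv.norm ℝ h.immersed

lemma ofReal_contDiff {f : ℝ → ℝ} (hf : ContDiff ℝ ∞ f) : ContDiff ℝ ∞ (fun x => (f x : ℂ)) :=
  Complex.ofRealCLM.contDiff.comp hf

lemma conj_contDiff {f : ℝ → ℂ} (hf : ContDiff ℝ ∞ f) : ContDiff ℝ ∞ (fun x => conj (f x)) :=
  Complex.conjCLE.contDiff.comp hf

lemma re_contDiff {f : ℝ → ℂ} (hf : ContDiff ℝ ∞ f) : ContDiff ℝ ∞ (fun x => (f x).re) :=
  Complex.reCLM.contDiff.comp hf

lemma im_contDiff {f : ℝ → ℂ} (hf : ContDiff ℝ ∞ f) : ContDiff ℝ ∞ (fun x => (f x).im) :=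
  Complex.imCLM.contDiff.comp hf

lemma IsClosedCurve.contDiff_tangent (h : IsClosedCurve γ) : ContDiff ℝ ∞ (tangent γ) := by
  have h1 : ContDiff ℝ ∞ (fun x => (‖deriv γ x‖)⁻¹ • deriv γ x) :=
    (h.contDiff_norm.inv (fun x => (h.norm_pos x).ne')).smul h.contDiff_deriv
  have h2 : tangent γ = fun x => (‖deriv γ x‖)⁻¹ • deriv γ x := by
    funext x
    unfold tangent
    rw [Complex.real_smul, Complex.ofReal_inv, div_eq_inv_mul]
  rw [h2]
  exact h1

lemma IsClosedCurve.periodic_tangent (h : IsClosedCurve γ) : Function.Periodic (tangent γ) 1 := by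
  intro x
  unfold tangent
  rw [periodic_deriv h.periodic x]

lemma IsClosedCurve.contDiff_normal (h : IsClosedCurve γ) : ContDiff ℝ ∞ (normal γ) := by
  unfold normal
  exact contDiff_const.mul h.contDiff_tangent

lemma IsClosedCurve.periodic_normal (h : IsClosedCurve γ) : Function.Periodic (normal γ) 1 := by
  intro x
  unfold normal
  rw [h.periodic_tangent x]

lemma contDiff_deriv' {E : Type*} [NormedAddCommGroup E] [NormedSpace ℝ E] {f : ℝ → E}
    (hf : ContDiff ℝ ∞ f) : ContDiff ℝ ∞ (deriv f) :=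
  (contDiff_infty_iff_deriv.mp hf).2

lemma contDiff_arcDeriv (h : IsClosedCurve γ) {f : ℝ → ℝ} (hf : ContDiff ℝ ∞ f) :
    ContDiff ℝ ∞ (arcDeriv γ f) := by
  unfold arcDeriv
  exact (contDiff_deriv' hf).div h.contDiff_norm (fun x => (h.norm_pos x).ne')

lemma periodic_arcDeriv (h : IsClosedCurve γ) {f : ℝ → ℝ} (hf : Function.Periodic f 1) :
    Function.Periodic (arcDeriv γ f) 1 := by
  intro x
  unfold arcDeriv
  rw [periodic_deriv h.periodic x, periodic_deriv hf x]

lemma IsClosedCurve.contDiff_curvature (h : IsClosedCurve γ) : ContDiff ℝ ∞ (curvature γ) := by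
  unfold curvature
  refine ContDiff.div ?_ h.contDiff_norm (fun x => (h.norm_pos x).ne')
  exact re_contDiff ((conj_contDiff h.contDiff_normal).mul (contDiff_deriv' h.contDiff_tangent))

lemma IsClosedCurve.periodic_curvature (h : IsClosedCurve γ) :
    Function.Periodic (curvature γ) 1 := by
  intro x
  unfold curvature
  rw [periodic_deriv h.periodic x, periodic_deriv h.periodic_tangent x, h.periodic_normal x]

lemma IsClosedCurve.norm_tangent (h : IsClosedCurve γ) (x : ℝ) : ‖tangent γ x‖ = 1 := by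
  unfold tangent
  rw [norm_div, Complex.norm_real, norm_norm, div_self (h.norm_pos x).ne']

lemma IsClosedCurve.deriv_eq (h : IsClosedCurve γ) (x : ℝ) :
    deriv γ x = (‖deriv γ x‖ : ℂ) * tangent γ x := by
  unfold tangent
  have : (‖deriv γ x‖ : ℂ) ≠ 0 := by exact_mod_cast (h.norm_pos x).ne'
  field_simp

/-- `∂ₓ τ = k |γ'| ν`. -/
lemma IsClosedCurve.deriv_tangent (h : IsClosedCurve γ) (x : ℝ) :
    deriv (tangent γ) x = ((curvature γ x * ‖deriv γ x‖ : ℝ) : ℂ) * normal γ x := by
  have hd : HasDerivAt (tangent γ) (deriv (tangent γ) x) x :=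
    ((h.contDiff_tangent.differentiable (by simp)) x).hasDerivAt
  set d := deriv (tangent γ) x with hdd
  set t := tangent γ x with ht
  have h1 : ∀ y, conj (tangent γ y) * tangent γ y = 1 := by
    intro y
    rw [mul_comm, Complex.mul_conj, Complex.normSq_eq_norm_sq, h.norm_tangent y]
    simp
  have hc : HasDerivAt (fun y => conj (tangent γ y)) (conj d) x := by
    exact hd.star
  have h2 : conj d * t + conj t * d = 0 := by
    have h3 := hc.mul hd
    have h4 : (fun y => conj (tangent γ y)) * tangent γ = fun _ => (1 : ℂ) := by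
      funext y
      simpa using h1 y
    rw [h4] at h3
    exact h3.unique (hasDerivAt_const x (1 : ℂ))
  have h1x := h1 x
  rw [← ht] at h1x
  have hk : curvature γ x * ‖deriv γ x‖ = (conj (normal γ x) * d).re := by
    unfold curvature
    rw [div_mul_cancel₀ _ (h.norm_pos x).ne']
  rw [hk]
  unfold normal
  rw [← ht]
  -- d = Re(conj (i t) d) i t
  have e1 := congrArg Complex.re h2
  have e2 := congrArg Complex.re h1x
  simp only [Complex.add_re, Complex.mul_re, Complex.conj_re, Complex.conj_im, Complex.zero_re,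
    Complex.one_re] at e1 e2
  apply Complex.ext
  · simp [Complex.mul_re, Complex.mul_im]
    linear_combination (-d.re) * e2 + (t.re / 2) * e1
  · simp [Complex.mul_re, Complex.mul_im]
    linear_combination (-d.im) * e2 + (t.im / 2) * e1

end Pool.Agent.H776R3.CDF
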