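import Pool.Agent.H776R3.CDF.Flow

open Set Filter Topology ComplexConjugate MeasureTheory
open scoped ContDiff Interval

namespace Pool.Agent.H776R3.CDF

/-- closed-open time domain -/
def dom (T : EReal) : Set (ℝ × ℝ) := {p | 0 ≤ p.1 ∧ (p.1 : EReal) < T}

/-- open time domain -/
def idom (T : EReal) : Set (ℝ × ℝ) := {p | 0 < p.1 ∧ (p.1 : EReal) < T}

lemma isOpen_idom (T : EReal) : IsOpen (idom T) := by
  refine (isOpen_lt continuous_const continuous_fst).inter ?_
  exact isOpen_lt (continuous_coe_real_ereal.comp continuous_fst) continuous_const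

lemma idom_subset_dom (T : EReal) : idom T ⊆ dom T := fun _ hp => ⟨hp.1.le, hp.2⟩

lemma uniqueDiffOn_dom {T : EReal} (hT : 0 < T) : UniqueDiffOn ℝ (dom T) := by
  have e : dom T = {t : ℝ | 0 ≤ t ∧ (t : EReal) < T} ×ˢ (univ : Set ℝ) := by
    ext p
    simp [dom]
  rw [e]
  refine UniqueDiffOn.prod ?_ uniqueDiffOn_univ
  have hoc : OrdConnected {t : ℝ | 0 ≤ t ∧ (t : EReal) < T} := by
    refine ⟨fun a ha b hb c hc => ⟨ha.1.trans hc.1, ?_⟩⟩
    exact lt_of_le_of_lt (EReal.coe_le_coe_iff.mpr hc.2) hb.2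
  apply uniqueDiffOn_convex hoc.convex
  obtain ⟨r, hr0, hrT⟩ := EReal.lt_iff_exists_real_btwn.mp hT
  have hr0' : (0 : ℝ) < r := by exact_mod_cast hr0
  refine ⟨r / 2, ?_⟩
  rw [mem_interior]
  refine ⟨Ioo 0 r, ?_, isOpen_Ioo, ⟨by linarith, by linarith⟩⟩
  intro s hs
  exact ⟨hs.1.le, lt_trans (EReal.coe_lt_coe_iff.mpr hs.2) hrT⟩

section

variable {u : ℝ → ℝ → ℂ} {η : ℝ → ℂ} {T : EReal}

lemma IsCDFSolution.smooth' (h : IsCDFSolution u η T) :
    ContDiffOn ℝ ∞ (fun p : ℝ × ℝ => u p.1 p.2) (dom T) := h.smooth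

lemma hasDerivAt_line (t x : ℝ) : HasDerivAt (fun y : ℝ => ((t, y) : ℝ × ℝ)) (0, 1) x :=
  (hasDerivAt_const x t).prodMk (hasDerivAt_id x)

lemma hasDerivAt_line' (t x : ℝ) : HasDerivAt (fun s : ℝ => ((s, x) : ℝ × ℝ)) (1, 0) t :=
  (hasDerivAt_id t).prodMk (hasDerivAt_const t x)

lemma IsCDFSolution.deriv_space (h : IsCDFSolution u η T) {p : ℝ × ℝ} (hp : p ∈ dom T) :
    deriv (u p.1) p.2
      = fderivWithin ℝ (fun p : ℝ × ℝ => u p.1 p.2) (dom T) p (0, 1) := by
  have h1 : HasFDerivWithinAt (fun p : ℝ × ℝ => u p.1 p.2)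
      (fderivWithin ℝ (fun p : ℝ × ℝ => u p.1 p.2) (dom T) p) (dom T) p :=
    ((h.smooth'.differentiableOn (by simp)) p hp).hasFDerivWithinAt
  have h2 := HasFDerivWithinAt.comp_hasDerivAt_of_eq (x := p.2) (y := p) h1
    (hasDerivAt_line p.1 p.2) (Eventually.of_forall fun y => ⟨hp.1, hp.2⟩) rfl
  exact h2.deriv

lemma IsCDFSolution.continuousOn_space (h : IsCDFSolution u η T) :
    ContinuousOn (fun p : ℝ × ℝ => deriv (u p.1) p.2) (dom T) := by
  have h1 := h.smooth'.continuousOn_fderivWithin (uniqueDiffOn_dom h.pos) (by simp)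
  have h2 : ContinuousOn (fun p => fderivWithin ℝ (fun p : ℝ × ℝ => u p.1 p.2) (dom T) p (0, 1))
      (dom T) := h1.clm_apply continuousOn_const
  exact h2.congr (fun p hp => h.deriv_space hp)

lemma IsCDFSolution.continuousOn (h : IsCDFSolution u η T) :
    ContinuousOn (fun p : ℝ × ℝ => u p.1 p.2) (dom T) := h.smooth'.continuousOn

lemma IsCDFSolution.contDiffAt (h : IsCDFSolution u η T) {p : ℝ × ℝ} (hp : p ∈ idom T) :
    ContDiffAt ℝ ∞ (fun p : ℝ × ℝ => u p.1 p.2) p :=
  h.smooth'.contDiffAt (mem_of_superset ((isOpen_idom T).mem_nhds hp) (idom_subset_dom T))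

lemma IsCDFSolution.deriv_space' (h : IsCDFSolution u η T) {p : ℝ × ℝ} (hp : p ∈ idom T) :
    deriv (u p.1) p.2 = fderiv ℝ (fun p : ℝ × ℝ => u p.1 p.2) p (0, 1) := by
  have h1 : HasFDerivAt (fun p : ℝ × ℝ => u p.1 p.2)
      (fderiv ℝ (fun p : ℝ × ℝ => u p.1 p.2) p) p :=
    ((h.contDiffAt hp).differentiableAt (by simp)).hasFDerivAt
  exact (HasFDerivAt.comp_hasDerivAt_of_eq (x := p.2) h1 (hasDerivAt_line p.1 p.2) rfl).deriv

lemma IsCDFSolution.vel_eq (h : IsCDFSolution u η T) {p : ℝ × ℝ} (hp : p ∈ idom T) :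
    vel (u p.1) p.2 = fderiv ℝ (fun p : ℝ × ℝ => u p.1 p.2) p (1, 0) := by
  have h1 : HasFDerivAt (fun p : ℝ × ℝ => u p.1 p.2)
      (fderiv ℝ (fun p : ℝ × ℝ => u p.1 p.2) p) p :=
    ((h.contDiffAt hp).differentiableAt (by simp)).hasFDerivAt
  have h2 := HasFDerivAt.comp_hasDerivAt_of_eq (x := p.1) h1 (hasDerivAt_line' p.1 p.2) rfl
  exact (h.flow p.1 p.2 hp.1 hp.2).unique h2

/-- Mixed partial derivative. -/
lemma IsCDFSolution.hasDerivAt_mixed (h : IsCDFSolution u η T) {t x : ℝ} (hp : (t, x) ∈ idom T) :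
    HasDerivAt (fun s => deriv (u s) x)
      (fderiv ℝ (fderiv ℝ (fun p : ℝ × ℝ => u p.1 p.2)) (t, x) (1, 0) (0, 1)) t := by
  have hc := h.contDiffAt hp
  have h1 : DifferentiableAt ℝ (fderiv ℝ (fun p : ℝ × ℝ => u p.1 p.2)) (t, x) :=
    (hc.fderiv_right (m := 1) (by norm_cast)).differentiableAt (by simp)
  have h2 := HasFDerivAt.comp_hasDerivAt_of_eq (x := t) h1.hasFDerivAt (hasDerivAt_line' t x) rfl
  have h3 : HasDerivAt (fun s => fderiv ℝ (fun p : ℝ × ℝ => u p.1 p.2) (s, x) (0, 1))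
      (fderiv ℝ (fderiv ℝ (fun p : ℝ × ℝ => u p.1 p.2)) (t, x) (1, 0) (0, 1)) t := by
    have := h2.clm_apply (hasDerivAt_const t ((0, 1) : ℝ × ℝ))
    simpa using this
  refine h3.congr_of_eventuallyEq ?_
  have hop : ∀ᶠ s in 𝓝 t, (s, x) ∈ idom T :=
    (continuous_id.prodMk continuous_const).continuousAt.eventually_mem
      ((isOpen_idom T).mem_nhds hp)
  filter_upwards [hop] with s hs
  exact h.deriv_space' hs

/-- The mixed partial derivative is the space derivative of the velocity. -/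
lemma IsCDFSolution.mixed_eq (h : IsCDFSolution u η T) {t x : ℝ} (hp : (t, x) ∈ idom T) :
    fderiv ℝ (fderiv ℝ (fun p : ℝ × ℝ => u p.1 p.2)) (t, x) (1, 0) (0, 1)
      = deriv (vel (u t)) x := by
  have hc := h.contDiffAt hp
  have h1 : DifferentiableAt ℝ (fderiv ℝ (fun p : ℝ × ℝ => u p.1 p.2)) (t, x) :=
    (hc.fderiv_right (m := 1) (by norm_cast)).differentiableAt (by simp)
  have h2 := HasFDerivAt.comp_hasDerivAt_of_eq (x := x) h1.hasFDerivAt (hasDerivAt_line t x) rfl
  have h3 : HasDerivAt (fun y => fderiv ℝ (fun p : ℝ × ℝ => u p.1 p.2) (t, y) (1, 0))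
      (fderiv ℝ (fderiv ℝ (fun p : ℝ × ℝ => u p.1 p.2)) (t, x) (0, 1) (1, 0)) x := by
    have := h2.clm_apply (hasDerivAt_const x ((1, 0) : ℝ × ℝ))
    simpa using this
  have h4 : HasDerivAt (vel (u t))
      (fderiv ℝ (fderiv ℝ (fun p : ℝ × ℝ => u p.1 p.2)) (t, x) (0, 1) (1, 0)) x := by
    refine h3.congr_of_eventuallyEq (Eventually.of_forall fun y => ?_)
    exact h.vel_eq (p := (t, y)) ⟨hp.1, hp.2⟩
  rw [h4.deriv]
  have h5 : (minSmoothness ℝ 2 : WithTop ℕ∞) ≤ ∞ := by
    rw [minSmoothness_of_isRCLikeNormedField]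
    exact WithTop.coe_le_coe.mpr le_top
  exact (hc.isSymmSndFDerivAt h5) (1, 0) (0, 1)

lemma IsCDFSolution.continuousOn_mixed (h : IsCDFSolution u η T) :
    ContinuousOn (fun p : ℝ × ℝ => deriv (vel (u p.1)) p.2) (idom T) := by
  have h0 : ContinuousOn (fun p : ℝ × ℝ =>
      fderiv ℝ (fderiv ℝ (fun p : ℝ × ℝ => u p.1 p.2)) p (1, 0) (0, 1)) (idom T) := by
    intro p hp
    have hc := h.contDiffAt hp
    have h1 : ContDiffAt ℝ 1 (fderiv ℝ (fun p : ℝ × ℝ => u p.1 p.2)) p :=
      hc.fderiv_right (m := 1) (by norm_cast)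
    have h2 : ContDiffAt ℝ 0 (fderiv ℝ (fderiv ℝ (fun p : ℝ × ℝ => u p.1 p.2))) p :=
      h1.fderiv_right (m := 0) (by simp)
    have h3 := h2.continuousAt
    exact ((h3.clm_apply continuousAt_const).clm_apply continuousAt_const).continuousWithinAt
  refine h0.congr (fun p hp => ?_)
  exact (h.mixed_eq (t := p.1) (x := p.2) hp).symm

lemma IsCDFSolution.hasDerivAt_deriv (h : IsCDFSolution u η T) {t x : ℝ} (hp : (t, x) ∈ idom T) :
    HasDerivAt (fun s => deriv (u s) x) (deriv (vel (u t)) x) t := by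
  rw [← h.mixed_eq hp]
  exact h.hasDerivAt_mixed hp

lemma IsCDFSolution.continuousOn_vel (h : IsCDFSolution u η T) :
    ContinuousOn (fun p : ℝ × ℝ => vel (u p.1) p.2) (idom T) := by
  have h0 : ContinuousOn (fun p : ℝ × ℝ =>
      fderiv ℝ (fun p : ℝ × ℝ => u p.1 p.2) p (1, 0)) (idom T) := by
    intro p hp
    have hc := h.contDiffAt hp
    have h1 : ContDiffAt ℝ 0 (fderiv ℝ (fun p : ℝ × ℝ => u p.1 p.2)) p :=
      hc.fderiv_right (m := 0) (by simp)
    exact (h1.continuousAt.clm_apply continuousAt_const).continuousWithinAt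
  exact h0.congr (fun p hp => h.vel_eq hp)

end

lemma hasDerivAt_norm {w : ℝ → ℂ} {d : ℂ} {t : ℝ} (hw : HasDerivAt w d t) (h0 : w t ≠ 0) :
    HasDerivAt (fun s => ‖w s‖) (conj (w t / (‖w t‖ : ℂ)) * d).re t := by
  have h1 := hw.norm_sq
  have hpos : 0 < ‖w t‖ := norm_pos_iff.mpr h0
  have h2 := h1.sqrt (by positivity)
  have e1 : (fun s => √(‖w s‖ ^ 2)) = fun s => ‖w s‖ := by
    funext s
    exact Real.sqrt_sq (norm_nonneg _)
  have h2' : HasDerivAt (fun s => √(‖w s‖ ^ 2))
    (2 * inner ℝ (w t) d / (2 * √(‖w t‖ ^ 2))) t := h2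
  rw [e1] at h2'
  convert h2' using 1
  rw [Real.sqrt_sq hpos.le, Complex.inner, map_div₀, Complex.conj_ofReal, div_mul_eq_mul_div,
    Complex.div_ofReal_re]
  field_simp

/-- Differentiation under the integral sign on a period. -/
lemma hasDerivAt_integral_param {T : EReal} {f f' : ℝ → ℝ → ℝ}
    (hf : ContinuousOn (fun p : ℝ × ℝ => f p.1 p.2) (idom T))
    (hf' : ContinuousOn (fun p : ℝ × ℝ => f' p.1 p.2) (idom T))
    (hd : ∀ s x, (s, x) ∈ idom T → HasDerivAt (fun r => f r x) (f' s x) s)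
    {t : ℝ} (ht0 : 0 < t) (htT : (t : EReal) < T) :
    HasDerivAt (fun s => ∫ x in (0 : ℝ)..1, f s x) (∫ x in (0 : ℝ)..1, f' t x) t := by
  obtain ⟨r, htr, hrT⟩ := EReal.lt_iff_exists_real_btwn.mp htT
  have htr' : t < r := by exact_mod_cast htr
  have hsub : Icc (t / 2) r ×ˢ Icc (0 : ℝ) 1 ⊆ idom T := by
    intro p hp
    refine ⟨?_, ?_⟩
    · have := hp.1.1
      linarith
    · exact lt_of_le_of_lt (EReal.coe_le_coe_iff.mpr hp.1.2) hrT
  obtain ⟨M, hM⟩ := (isCompact_Icc.prod isCompact_Icc).exists_bound_of_continuousOn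
    (hf'.mono hsub)
  have hslice : ∀ {g : ℝ → ℝ → ℝ}, ContinuousOn (fun p : ℝ × ℝ => g p.1 p.2) (idom T) →
      ∀ s : ℝ, 0 < s → (s : EReal) < T → Continuous (g s) := by
    intro g hg s hs hsT
    rw [← continuousOn_univ]
    have h1 : ContinuousOn (fun x : ℝ => ((s, x) : ℝ × ℝ)) univ := by fun_prop
    exact hg.comp h1 (fun x _ => ⟨hs, hsT⟩)
  have hnhds : Ioo (t / 2) r ∈ 𝓝 t := Ioo_mem_nhds (by linarith) htr'
  refine (intervalIntegral.hasDerivAt_integral_of_dominated_loc_of_deriv_le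
    (μ := volume) (F := f) (F' := f') (bound := fun _ => M) hnhds ?_ ?_ ?_ ?_ ?_ ?_).2
  · filter_upwards [hnhds] with s hs
    exact (hslice hf s (by linarith [hs.1])
      (lt_trans (EReal.coe_lt_coe_iff.mpr hs.2) hrT)).aestronglyMeasurable
  · exact (hslice hf t ht0 htT).intervalIntegrable _ _
  · exact (hslice hf' t ht0 htT).aestronglyMeasurable
  · refine Eventually.of_forall fun x hx s hs => ?_
    rw [uIoc_of_le (by norm_num)] at hx
    exact hM (s, x) ⟨⟨hs.1.le, hs.2.le⟩, ⟨hx.1.le, hx.2⟩⟩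
  · exact intervalIntegrable_const
  · refine Eventually.of_forall fun x hx s hs => ?_
    exact hd s x ⟨by linarith [hs.1], lt_trans (EReal.coe_lt_coe_iff.mpr hs.2) hrT⟩

/-- Continuity of the parametric integral up to time zero. -/
lemma continuousOn_integral_param {T : EReal} {f : ℝ → ℝ → ℝ}
    (hf : ContinuousOn (fun p : ℝ × ℝ => f p.1 p.2) (dom T)) {t₁ : ℝ}
    (htT : (t₁ : EReal) < T) :
    ContinuousOn (fun s => ∫ x in (0 : ℝ)..1, f s x) (Icc 0 t₁) := by
  have hsub : Icc (0 : ℝ) t₁ ×ˢ Icc (0 : ℝ) 1 ⊆ dom T := by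
    intro p hp
    exact ⟨hp.1.1, lt_of_le_of_lt (EReal.coe_le_coe_iff.mpr hp.1.2) htT⟩
  have hslice : ∀ s : ℝ, 0 ≤ s → (s : EReal) < T → Continuous (f s) := by
    intro s hs hsT
    rw [← continuousOn_univ]
    have h1 : ContinuousOn (fun x : ℝ => ((s, x) : ℝ × ℝ)) univ := by fun_prop
    exact hf.comp h1 (fun x _ => ⟨hs, hsT⟩)
  obtain ⟨M, hM⟩ := (isCompact_Icc.prod isCompact_Icc).exists_bound_of_continuousOn
    (hf.mono hsub)
  intro t ht
  have hlt : ∀ s ∈ Icc (0 : ℝ) t₁, (s : EReal) < T := fun s hs =>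
    lt_of_le_of_lt (EReal.coe_le_coe_iff.mpr hs.2) htT
  refine intervalIntegral.continuousWithinAt_of_dominated_interval (μ := volume)
    (bound := fun _ => M) ?_ ?_ ?_ ?_
  · filter_upwards [self_mem_nhdsWithin] with s hs
    exact (hslice s hs.1 (hlt s hs)).aestronglyMeasurable
  · filter_upwards [self_mem_nhdsWithin] with s hs
    refine Eventually.of_forall fun x hx => ?_
    rw [uIoc_of_le (by norm_num)] at hx
    exact hM (s, x) ⟨hs, ⟨hx.1.le, hx.2⟩⟩
  · exact intervalIntegrable_const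
  · refine Eventually.of_forall fun x hx => ?_
    have h1 : ContinuousWithinAt (fun p : ℝ × ℝ => f p.1 p.2) (dom T) (t, x) :=
      hf (t, x) ⟨ht.1, hlt t ht⟩
    have h2 : ContinuousWithinAt (fun s : ℝ => ((s, x) : ℝ × ℝ)) (Icc 0 t₁) t := by fun_prop
    exact ContinuousWithinAt.comp (f := fun s : ℝ => ((s, x) : ℝ × ℝ))
      (g := fun p : ℝ × ℝ => f p.1 p.2) h1 h2 (fun s hs => ⟨hs.1, hlt s hs⟩)

section

variable {u : ℝ → ℝ → ℂ} {η : ℝ → ℂ} {T : EReal}

/-- Length does not increase along the flow. -/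
lemma IsCDFSolution.len_le (h : IsCDFSolution u η T) {t₁ : ℝ} (h0 : 0 ≤ t₁)
    (htT : (t₁ : EReal) < T) : len (u t₁) ≤ len η := by
  have hlt : ∀ s ∈ Icc (0 : ℝ) t₁, (s : EReal) < T := fun s hs =>
    lt_of_le_of_lt (EReal.coe_le_coe_iff.mpr hs.2) htT
  have hcont : ContinuousOn (fun s => len (u s)) (Icc 0 t₁) :=
    continuousOn_integral_param (f := fun s x => ‖deriv (u s) x‖)
      h.continuousOn_space.norm htT
  have hcur : ∀ p ∈ idom T, IsClosedCurve (u p.1) := fun p hp => h.curve p.1 hp.1.le hp.2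
  have hder : ∀ t : ℝ, 0 < t → (t : EReal) < T → HasDerivAt (fun s => len (u s))
      (∫ x in (0 : ℝ)..1, (conj (tangent (u t) x) * deriv (vel (u t)) x).re) t := by
    intro t ht0 htT
    refine hasDerivAt_integral_param (T := T) (f := fun s x => ‖deriv (u s) x‖)
      (f' := fun s x => (conj (tangent (u s) x) * deriv (vel (u s)) x).re) ?_ ?_ ?_ ht0 htT
    · exact (h.continuousOn_space.mono (idom_subset_dom T)).norm
    · have hsp := h.continuousOn_space.mono (idom_subset_dom T)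
      have htan : ContinuousOn (fun p : ℝ × ℝ => tangent (u p.1) p.2) (idom T) := by
        unfold tangent
        refine hsp.div (Complex.continuous_ofReal.comp_continuousOn hsp.norm) ?_
        intro p hp
        exact_mod_cast ((hcur p hp).norm_pos p.2).ne'
      exact Complex.continuous_re.comp_continuousOn
        ((Complex.continuous_conj.comp_continuousOn htan).mul h.continuousOn_mixed)
    · intro s x hs
      exact hasDerivAt_norm (h.hasDerivAt_deriv hs) ((hcur _ hs).immersed x)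
  have hanti : AntitoneOn (fun s => len (u s)) (Icc 0 t₁) := by
    apply antitoneOn_of_deriv_nonpos (convex_Icc _ _) hcont
    · intro s hs
      rw [interior_Icc] at hs
      exact (hder s hs.1 (hlt s ⟨hs.1.le, hs.2.le⟩)).differentiableAt.differentiableWithinAt
    · intro s hs
      rw [interior_Icc] at hs
      rw [(hder s hs.1 (hlt s ⟨hs.1.le, hs.2.le⟩)).deriv]
      exact len_variation (h.curve s hs.1.le (hlt s ⟨hs.1.le, hs.2.le⟩))
  have := hanti (left_mem_Icc.mpr h0) (right_mem_Icc.mpr h0) h0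
  simpa [h.initial] using this

/-- Signed area is preserved along the flow. -/
lemma IsCDFSolution.area_eq (h : IsCDFSolution u η T) {t₁ : ℝ} (h0 : 0 ≤ t₁)
    (htT : (t₁ : EReal) < T) : area (u t₁) = area η := by
  have hlt : ∀ s ∈ Icc (0 : ℝ) t₁, (s : EReal) < T := fun s hs =>
    lt_of_le_of_lt (EReal.coe_le_coe_iff.mpr hs.2) htT
  have hcont : ContinuousOn (fun s => area (u s)) (Icc 0 t₁) := by
    unfold area
    refine continuousOn_const.mul ?_
    refine continuousOn_integral_param (T := T)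
      (f := fun s x => (conj (u s x) * deriv (u s) x).im) ?_ htT
    exact Complex.continuous_im.comp_continuousOn
      ((Complex.continuous_conj.comp_continuousOn h.continuousOn).mul h.continuousOn_space)
  have hder : ∀ t : ℝ, 0 < t → (t : EReal) < T → HasDerivAt (fun s => area (u s)) 0 t := by
    intro t ht0 htT
    have h1 : HasDerivAt (fun s => ∫ x in (0 : ℝ)..1, (conj (u s x) * deriv (u s) x).im)
        (∫ x in (0 : ℝ)..1, (conj (vel (u t) x) * deriv (u t) x
          + conj (u t x) * deriv (vel (u t)) x).im) t := by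
      refine hasDerivAt_integral_param (T := T)
        (f := fun s x => (conj (u s x) * deriv (u s) x).im)
        (f' := fun s x => (conj (vel (u s) x) * deriv (u s) x
          + conj (u s x) * deriv (vel (u s)) x).im) ?_ ?_ ?_ ht0 htT
      · exact (Complex.continuous_im.comp_continuousOn
          ((Complex.continuous_conj.comp_continuousOn h.continuousOn).mul
            h.continuousOn_space)).mono (idom_subset_dom T)
      · have hsp := h.continuousOn_space.mono (idom_subset_dom T)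
        have hu := h.continuousOn.mono (idom_subset_dom T)
        exact Complex.continuous_im.comp_continuousOn
          (((Complex.continuous_conj.comp_continuousOn h.continuousOn_vel).mul hsp).add
            ((Complex.continuous_conj.comp_continuousOn hu).mul h.continuousOn_mixed))
      · intro s x hs
        exact hasDerivAt_im ((hasDerivAt_conj (h.flow s x hs.1 hs.2)).mul
          (h.hasDerivAt_deriv hs))
    rw [area_variation (h.curve t ht0.le htT)] at h1
    have h2 := h1.const_mul (1 / 2 : ℝ)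
    rw [mul_zero] at h2
    exact h2
  have hint : ∀ s ∈ interior (Icc (0 : ℝ) t₁), HasDerivAt (fun s => area (u s)) 0 s := by
    intro s hs
    rw [interior_Icc] at hs
    exact hder s hs.1 (hlt s ⟨hs.1.le, hs.2.le⟩)
  have hanti : AntitoneOn (fun s => area (u s)) (Icc 0 t₁) := by
    apply antitoneOn_of_deriv_nonpos (convex_Icc _ _) hcont
    · intro s hs
      exact (hint s hs).differentiableAt.differentiableWithinAt
    · intro s hs
      rw [(hint s hs).deriv]
  have hmono : MonotoneOn (fun s => area (u s)) (Icc 0 t₁) := by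
    apply monotoneOn_of_deriv_nonneg (convex_Icc _ _) hcont
    · intro s hs
      exact (hint s hs).differentiableAt.differentiableWithinAt
    · intro s hs
      rw [(hint s hs).deriv]
  have e1 := hanti (left_mem_Icc.mpr h0) (right_mem_Icc.mpr h0) h0
  have e2 := hmono (left_mem_Icc.mpr h0) (right_mem_Icc.mpr h0) h0
  have := le_antisymm e1 e2
  simpa [h.initial] using this

end

end Pool.Agent.H776R3.CDF
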