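import Pool.Agent.H776R3.CDF.Time

open Set Filter Topology ComplexConjugate MeasureTheory
open scoped ContDiff Interval

namespace Pool.Agent.H776R3.CDF

variable {γ : ℝ → ℂ}

/-- A dynamically stable curve maximises `|A| / L²` in a `C^∞` neighbourhood. -/
lemma stable_ratio (h : IsClosedCurve γ) (hs : DynamicallyStableCDF γ) :
    ∃ K : ℕ, ∃ ε : ℝ, 0 < ε ∧ ∀ η : ℝ → ℂ, IsClosedCurve η → CInftyClose K ε γ η →
      |area η| * len γ ^ 2 ≤ |area γ| * len η ^ 2 := by
  obtain ⟨K, ε, hε, hst⟩ := hs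
  refine ⟨K, ε, hε, fun η hη hclose => ?_⟩
  obtain ⟨T, u, ⟨hsol, -⟩, S, φ, hS, hφ, hconv⟩ := hst η hη hclose
  have hex : ∀ n : ℕ, ∃ t : ℝ, 0 ≤ t ∧ (t : EReal) < T ∧
      (∀ x, ‖S t (u t (φ t x)) - γ x‖ < 1 / ((n : ℝ) + 1)) ∧
      ∀ x, ‖deriv (fun y => S t (u t (φ t y))) x - deriv γ x‖ < 1 / ((n : ℝ) + 1) := by
    intro n
    have hn : (0 : ℝ) < 1 / ((n : ℝ) + 1) := by positivity
    obtain ⟨t0, ht0, ht0T, h0⟩ := hconv 0 _ hn
    obtain ⟨t1, ht1, ht1T, h1⟩ := hconv 1 _ hn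
    refine ⟨max t0 t1, le_max_of_le_left ht0, ?_, fun x => ?_, fun x => ?_⟩
    · rcases max_cases t0 t1 with ⟨e, _⟩ | ⟨e, _⟩ <;> rw [e] <;> assumption
    · have := h0 (max t0 t1) (le_max_left _ _)
        (by rcases max_cases t0 t1 with ⟨e, _⟩ | ⟨e, _⟩ <;> rw [e] <;> assumption) x
      simpa only [iteratedDeriv_zero] using this
    · have := h1 (max t0 t1) (le_max_right _ _)
        (by rcases max_cases t0 t1 with ⟨e, _⟩ | ⟨e, _⟩ <;> rw [e] <;> assumption) x
      simpa only [iteratedDeriv_one] using this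
  choose t ht0 htT hC0 hC1 using hex
  set w : ℕ → ℝ → ℂ := fun n y => S (t n) (u (t n) (φ (t n) y)) with hw
  have hsim := fun n => similar (hsol.curve (t n) (ht0 n) (htT n)) (hS (t n)) (hφ (t n))
  have hwc : ∀ n, IsClosedCurve (w n) := fun n => (hsim n).choose_spec.2.1
  have hlim : Tendsto (fun n : ℕ => 1 / ((n : ℝ) + 1)) atTop (𝓝 0) :=
    tendsto_one_div_add_atTop_nhds_zero_nat
  have hL := tendsto_len h hwc hlim (fun n x => (hC1 n x).le)
  have hA := tendsto_area h hwc hlim (fun n x => (hC0 n x).le) (fun n x => (hC1 n x).le)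
  have hineq : ∀ n, |area η| * len (w n) ^ 2 ≤ |area (w n)| * len η ^ 2 := by
    intro n
    obtain ⟨ρ, hρ, -, h1, h2⟩ := hsim n
    have h1' : len (w n) = ρ * len (u (t n)) := h1
    have h2' : |area (w n)| = ρ ^ 2 * |area (u (t n))| := h2
    rw [h1', h2', hsol.area_eq (ht0 n) (htT n)]
    have h3 := hsol.len_le (ht0 n) (htT n)
    have h4 := len_pos (hsol.curve (t n) (ht0 n) (htT n))
    have h5 : len (u (t n)) ^ 2 ≤ len η ^ 2 := pow_le_pow_left₀ h4.le h3 2
    have : |area η| * (ρ * len (u (t n))) ^ 2 = ρ ^ 2 * |area η| * len (u (t n)) ^ 2 := by ring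
    rw [this]
    exact mul_le_mul_of_nonneg_left h5 (by positivity)
  have e1 : Tendsto (fun n => |area η| * len (w n) ^ 2) atTop (𝓝 (|area η| * len γ ^ 2)) :=
    (hL.pow 2).const_mul _
  have e2 : Tendsto (fun n => |area (w n)| * len η ^ 2) atTop (𝓝 (|area γ| * len η ^ 2)) :=
    hA.abs.mul_const _
  exact le_of_tendsto_of_tendsto' e1 e2 hineq

lemma iteratedDeriv_periodic {f : ℝ → ℂ} (hp : Function.Periodic f 1) (k : ℕ) :
    Function.Periodic (iteratedDeriv k f) 1 := by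
  induction k with
  | zero => simpa [iteratedDeriv_zero] using hp
  | succ k ih =>
    rw [iteratedDeriv_succ]
    exact periodic_deriv ih

lemma iteratedDeriv_bounded {f : ℝ → ℂ} (hf : ContDiff ℝ ∞ f) (hp : Function.Periodic f 1)
    (K : ℕ) : ∃ M : ℝ, 0 ≤ M ∧ ∀ k ≤ K, ∀ x, ‖iteratedDeriv k f x‖ ≤ M := by
  induction K with
  | zero =>
    obtain ⟨M, hM0, hM⟩ := periodic_bounded (f := iteratedDeriv 0 f)
      (hf.continuous_iteratedDeriv 0 (by simp)) (iteratedDeriv_periodic hp 0)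
    refine ⟨M, hM0, fun k hk x => ?_⟩
    have : k = 0 := by omega
    subst this
    exact hM x
  | succ K ih =>
    obtain ⟨M, hM0, hM⟩ := ih
    obtain ⟨M', hM'0, hM'⟩ := periodic_bounded (f := iteratedDeriv (K + 1) f)
      (hf.continuous_iteratedDeriv (K + 1) (by exact_mod_cast le_top))
      (iteratedDeriv_periodic hp (K + 1))
    refine ⟨max M M', le_max_of_le_left hM0, fun k hk x => ?_⟩
    rcases Nat.lt_or_ge k (K + 1) with h1 | h1
    · exact (hM k (by omega) x).trans (le_max_left _ _)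
    · have : k = K + 1 := by omega
      subst this
      exact (hM' x).trans (le_max_right _ _)

/-- perturbed curve -/
noncomputable def pert (γ ψ : ℝ → ℂ) (δ : ℝ) (x : ℝ) : ℂ := γ x + δ • ψ x

lemma hasDerivAt_pert {ψ : ℝ → ℂ} (h : IsClosedCurve γ) (hψ : ContDiff ℝ ∞ ψ) (δ x : ℝ) :
    HasDerivAt (pert γ ψ δ) (deriv γ x + δ • deriv ψ x) x :=
  (h.hasDerivAt x).add ((hasDerivAt_of_contDiff hψ x).const_smul δ)

lemma exists_lower_bound (h : IsClosedCurve γ) : ∃ m : ℝ, 0 < m ∧ ∀ x, m ≤ ‖deriv γ x‖ := by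
  obtain ⟨y, hy, hmin⟩ := (isCompact_Icc (a := (0 : ℝ)) (b := 1)).exists_isMinOn
    ⟨0, by simp⟩ (h.continuous_deriv.norm.continuousOn)
  refine ⟨‖deriv γ y‖, h.norm_pos y, fun x => ?_⟩
  have hp : Function.Periodic (deriv γ) 1 := periodic_deriv h.periodic
  obtain ⟨z, hz, hxz⟩ := hp.exists_mem_Ico₀ (by norm_num) x
  rw [hxz]
  exact hmin ⟨hz.1, hz.2.le⟩

lemma pert_close {ψ : ℝ → ℂ} (h : IsClosedCurve γ) (hψ : ContDiff ℝ ∞ ψ)
    (hp : Function.Periodic ψ 1) (K : ℕ) {ε : ℝ} (hε : 0 < ε) :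
    ∃ δ₀ : ℝ, 0 < δ₀ ∧ ∀ δ : ℝ, |δ| < δ₀ → IsClosedCurve (pert γ ψ δ) ∧
      CInftyClose K ε γ (pert γ ψ δ) := by
  obtain ⟨M, hM0, hM⟩ := iteratedDeriv_bounded hψ hp (max K 1)
  obtain ⟨m, hm, hmγ⟩ := exists_lower_bound h
  refine ⟨min ε m / (M + 1), by positivity, fun δ hδ => ?_⟩
  have hδ' : |δ| * (M + 1) < min ε m := by
    rwa [lt_div_iff₀ (by positivity)] at hδ
  have hδM : |δ| * M < min ε m := by
    have : |δ| * M ≤ |δ| * (M + 1) := by nlinarith [abs_nonneg δ]
    linarith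
  refine ⟨⟨?_, fun x => ?_, fun x => ?_⟩, fun k hk x => ?_⟩
  · exact h.smooth.add (hψ.const_smul δ)
  · simp only [pert, h.periodic x, hp x]
  · rw [(hasDerivAt_pert h hψ δ x).deriv]
    intro h0
    have h1 : ‖deriv γ x‖ = ‖δ • deriv ψ x‖ := by
      rw [eq_neg_of_add_eq_zero_left h0, norm_neg]
    rw [norm_smul, Real.norm_eq_abs] at h1
    have h2 := hM 1 (le_max_right _ _) x
    rw [iteratedDeriv_one] at h2
    have h3 : |δ| * ‖deriv ψ x‖ ≤ |δ| * M := mul_le_mul_of_nonneg_left h2 (abs_nonneg _)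
    have h4 := hmγ x
    have h5 := min_le_right ε m
    linarith
  · have e : iteratedDeriv k (pert γ ψ δ) x = iteratedDeriv k γ x + δ • iteratedDeriv k ψ x := by
      have h1 : pert γ ψ δ = γ + fun y => δ • ψ y := rfl
      have hk' : ((k : ℕ∞) : WithTop ℕ∞) ≤ ∞ := by exact_mod_cast le_top
      rw [h1, iteratedDeriv_add (h.smooth.contDiffAt.of_le hk')
        ((hψ.const_smul δ).contDiffAt.of_le hk')]
      congr 1
      exact iteratedDeriv_const_smul (hψ.contDiffAt.of_le hk') δ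
    rw [e, add_sub_cancel_left, norm_smul, Real.norm_eq_abs]
    have h2 := hM k (hk.trans (le_max_left _ _)) x
    have h3 : |δ| * ‖iteratedDeriv k ψ x‖ ≤ |δ| * M := mul_le_mul_of_nonneg_left h2 (abs_nonneg _)
    have h5 := min_le_left ε m
    linarith

lemma area_pert {ψ : ℝ → ℂ} (h : IsClosedCurve γ) (hψ : ContDiff ℝ ∞ ψ)
    (hp : Function.Periodic ψ 1) (δ : ℝ) :
    area (pert γ ψ δ) = area γ + δ * (∫ x in (0 : ℝ)..1, (conj (ψ x) * deriv γ x).im)
      + δ ^ 2 * area ψ := by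
  unfold area
  have hc : ∀ {f g : ℝ → ℂ}, ContDiff ℝ ∞ f → ContDiff ℝ ∞ g →
      IntervalIntegrable (fun x => (conj (f x) * deriv g x).im) volume 0 1 := by
    intro f g hf hg
    exact (Complex.continuous_im.comp ((Complex.continuous_conj.comp
      hf.continuous).mul (contDiff_deriv' hg).continuous)).intervalIntegrable _ _
  have e : ∀ x, (conj (pert γ ψ δ x) * deriv (pert γ ψ δ) x).im
      = ((conj (γ x) * deriv γ x).im + δ * ((conj (ψ x) * deriv γ x).im
        + (conj (γ x) * deriv ψ x).im)) + δ ^ 2 * (conj (ψ x) * deriv ψ x).im := by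
    intro x
    rw [(hasDerivAt_pert h hψ δ x).deriv]
    unfold pert
    have : conj (γ x + δ • ψ x) * (deriv γ x + δ • deriv ψ x)
        = conj (γ x) * deriv γ x + (δ : ℂ) * (conj (ψ x) * deriv γ x + conj (γ x) * deriv ψ x)
          + ((δ ^ 2 : ℝ) : ℂ) * (conj (ψ x) * deriv ψ x) := by
      rw [map_add, Complex.real_smul, Complex.real_smul, map_mul, Complex.conj_ofReal]
      push_cast
      ring
    rw [this, Complex.add_im, Complex.add_im, Complex.im_ofReal_mul, Complex.im_ofReal_mul,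
      Complex.add_im]
  simp_rw [e]
  have i1 := hc h.smooth h.smooth
  have i2 := hc hψ h.smooth
  have i3 := hc h.smooth hψ
  have i4 := hc hψ hψ
  rw [intervalIntegral.integral_add (i1.add ((i2.add i3).const_mul δ)) (i4.const_mul (δ ^ 2)),
    intervalIntegral.integral_add i1 ((i2.add i3).const_mul δ),
    intervalIntegral.integral_const_mul, intervalIntegral.integral_const_mul,
    intervalIntegral.integral_add i2 i3, parts_im h.smooth hψ h.periodic hp]
  have e1 : ∀ x, (conj (deriv γ x) * ψ x).im = -(conj (ψ x) * deriv γ x).im := by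
    intro x
    rw [← Complex.conj_im, map_mul, Complex.conj_conj, mul_comm]
  simp_rw [e1]
  rw [intervalIntegral.integral_neg]
  ring

lemma norm_add_le_quad {a b : ℂ} (ha : a ≠ 0) (δ : ℝ) :
    ‖a + δ • b‖ ≤ ‖a‖ + δ * (conj (a / (‖a‖ : ℂ)) * b).re + δ ^ 2 * (‖b‖ ^ 2 / (2 * ‖a‖)) := by
  have hs : 0 < ‖a‖ := norm_pos_iff.mpr ha
  have h1 : ‖a + δ • b‖ ^ 2 = ‖a‖ ^ 2 + 2 * δ * (conj a * b).re + δ ^ 2 * ‖b‖ ^ 2 := by
    rw [← Complex.normSq_eq_norm_sq, ← Complex.normSq_eq_norm_sq, ← Complex.normSq_eq_norm_sq,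
      Complex.normSq_apply, Complex.normSq_apply, Complex.normSq_apply]
    simp [Complex.mul_re]
    ring
  have h2 : (conj (a / (‖a‖ : ℂ)) * b).re = (conj a * b).re / ‖a‖ := by
    rw [map_div₀, Complex.conj_ofReal, div_mul_eq_mul_div, Complex.div_ofReal_re]
  rw [h2]
  have h3 : ‖a + δ • b‖ ≤ (‖a + δ • b‖ ^ 2 + ‖a‖ ^ 2) / (2 * ‖a‖) := by
    rw [le_div_iff₀ (by positivity)]
    nlinarith [sq_nonneg (‖a + δ • b‖ - ‖a‖)]
  refine h3.trans (le_of_eq ?_)
  rw [h1]
  field_simp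
  ring

lemma len_pert_le {ψ : ℝ → ℂ} (h : IsClosedCurve γ) (hψ : ContDiff ℝ ∞ ψ) (δ : ℝ) :
    len (pert γ ψ δ) ≤ len γ + δ * (∫ x in (0 : ℝ)..1, (conj (tangent γ x) * deriv ψ x).re)
      + δ ^ 2 * (∫ x in (0 : ℝ)..1, ‖deriv ψ x‖ ^ 2 / (2 * ‖deriv γ x‖)) := by
  unfold len
  have i1 : IntervalIntegrable (fun x => ‖deriv γ x‖) volume 0 1 :=
    h.continuous_deriv.norm.intervalIntegrable _ _
  have i2 : IntervalIntegrable (fun x => (conj (tangent γ x) * deriv ψ x).re) volume 0 1 :=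
    (Complex.continuous_re.comp ((Complex.continuous_conj.comp
      h.contDiff_tangent.continuous).mul (contDiff_deriv' hψ).continuous)).intervalIntegrable _ _
  have i3 : IntervalIntegrable (fun x => ‖deriv ψ x‖ ^ 2 / (2 * ‖deriv γ x‖)) volume 0 1 := by
    refine Continuous.intervalIntegrable ?_ _ _
    refine ((contDiff_deriv' hψ).continuous.norm.pow 2).div
      (continuous_const.mul h.continuous_deriv.norm) (fun x => ?_)
    have := h.norm_pos x
    positivity
  rw [← intervalIntegral.integral_const_mul, ← intervalIntegral.integral_const_mul,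
    ← intervalIntegral.integral_add i1 (i2.const_mul δ),
    ← intervalIntegral.integral_add (i1.add (i2.const_mul δ)) (i3.const_mul (δ ^ 2))]
  refine intervalIntegral.integral_mono_on (by norm_num) ?_
    ((i1.add (i2.const_mul δ)).add (i3.const_mul (δ ^ 2))) (fun x _ => ?_)
  · have e : deriv (pert γ ψ δ) = fun x => deriv γ x + δ • deriv ψ x := by
      funext x
      exact (hasDerivAt_pert h hψ δ x).deriv
    rw [e]
    exact ((h.continuous_deriv.add
      ((contDiff_deriv' hψ).continuous.const_smul δ)).norm).intervalIntegrable _ _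
  · rw [(hasDerivAt_pert h hψ δ x).deriv]
    exact norm_add_le_quad (h.immersed x) δ

/-- A local maximiser of `|A| / L²` has nonzero area. -/
lemma area_ne_zero (h : IsClosedCurve γ) (hs : DynamicallyStableCDF γ) : area γ ≠ 0 := by
  intro hA
  obtain ⟨K, ε, hε, hr⟩ := stable_ratio h hs
  set ψ : ℝ → ℂ := fun x => Complex.I * deriv γ x with hψd
  have hψ : ContDiff ℝ ∞ ψ := contDiff_const.mul h.contDiff_deriv
  have hp : Function.Periodic ψ 1 := by
    intro x
    simp only [hψd, periodic_deriv h.periodic x]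
  obtain ⟨δ₀, hδ₀, hcl⟩ := pert_close h hψ hp K hε
  have hz : ∀ δ : ℝ, |δ| < δ₀ → area (pert γ ψ δ) = 0 := by
    intro δ hδ
    obtain ⟨h1, h2⟩ := hcl δ hδ
    have h3 := hr _ h1 h2
    rw [hA, abs_zero, zero_mul] at h3
    have h4 := len_pos h
    by_contra hne
    have : 0 < |area (pert γ ψ δ)| * len γ ^ 2 := by
      have := abs_pos.mpr hne
      positivity
    linarith
  have ha := hz (δ₀ / 2) (by rw [abs_of_pos (by positivity)]; linarith)
  have hb := hz (δ₀ / 4) (by rw [abs_of_pos (by positivity)]; linarith)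
  rw [area_pert h hψ hp, hA] at ha hb
  set A1 := ∫ x in (0 : ℝ)..1, (conj (ψ x) * deriv γ x).im with hA1
  have hA1z : A1 = 0 := by
    have e1 : A1 + (δ₀ / 2) * area ψ = 0 := by
      have : (δ₀ / 2) * (A1 + (δ₀ / 2) * area ψ) = 0 := by linarith
      rcases mul_eq_zero.mp this with h5 | h5
      · linarith
      · exact h5
    have e2 : A1 + (δ₀ / 4) * area ψ = 0 := by
      have : (δ₀ / 4) * (A1 + (δ₀ / 4) * area ψ) = 0 := by linarith
      rcases mul_eq_zero.mp this with h5 | h5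
      · linarith
      · exact h5
    linarith
  have hneg : 0 < ∫ x in (0 : ℝ)..1, ‖deriv γ x‖ ^ 2 := by
    apply intervalIntegral.intervalIntegral_pos_of_pos_on
    · exact (h.continuous_deriv.norm.pow 2).intervalIntegrable _ _
    · intro x _
      have := h.norm_pos x
      positivity
    · norm_num
  have e : ∀ x, (conj (ψ x) * deriv γ x).im = -‖deriv γ x‖ ^ 2 := by
    intro x
    have : conj (ψ x) * deriv γ x = -Complex.I * (conj (deriv γ x) * deriv γ x) := by
      simp only [hψd, map_mul, Complex.conj_I]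
      ring
    rw [this, mul_comm (conj (deriv γ x)), Complex.mul_conj, Complex.normSq_eq_norm_sq]
    simp
    norm_cast
  rw [hA1] at hA1z
  simp_rw [e] at hA1z
  rw [intervalIntegral.integral_neg] at hA1z
  linarith

/-- First order condition. -/
lemma first_order (h : IsClosedCurve γ) (hs : DynamicallyStableCDF γ) {ψ : ℝ → ℂ}
    (hψ : ContDiff ℝ ∞ ψ) (hp : Function.Periodic ψ 1) :
    2 * area γ * (∫ x in (0 : ℝ)..1, (conj (tangent γ x) * deriv ψ x).re)
      = len γ * ∫ x in (0 : ℝ)..1, (conj (ψ x) * deriv γ x).im := by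
  obtain ⟨K, ε, hε, hr⟩ := stable_ratio h hs
  have hAne := area_ne_zero h hs
  obtain ⟨δ₀, hδ₀, hcl⟩ := pert_close h hψ hp K hε
  have hL := len_pos h
  set A := area γ with hAdef
  set L := len γ with hLdef
  set L1 := ∫ x in (0 : ℝ)..1, (conj (tangent γ x) * deriv ψ x).re with hL1
  set A1 := ∫ x in (0 : ℝ)..1, (conj (ψ x) * deriv γ x).im with hA1
  set C := ∫ x in (0 : ℝ)..1, ‖deriv ψ x‖ ^ 2 / (2 * ‖deriv γ x‖) with hC
  set A2 := area ψ with hA2
  set P : ℝ → ℝ := fun δ => A ^ 2 * (L + δ * L1 + δ ^ 2 * C) ^ 2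
    - A * (A + δ * A1 + δ ^ 2 * A2) * L ^ 2 with hP
  have hP0 : P 0 = 0 := by simp [hP]; ring
  have hPnn : ∀ δ : ℝ, |δ| < δ₀ → 0 ≤ P δ := by
    intro δ hδ
    obtain ⟨h1, h2⟩ := hcl δ hδ
    have h3 := hr _ h1 h2
    have h4 := len_pert_le h hψ δ
    have h5 := len_pos h1
    have h6 := area_pert h hψ hp δ
    have h7 : A * area (pert γ ψ δ) ≤ |A| * |area (pert γ ψ δ)| := by
      rw [← abs_mul]
      exact le_abs_self _
    have h8 : len (pert γ ψ δ) ^ 2 ≤ (L + δ * L1 + δ ^ 2 * C) ^ 2 :=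
      pow_le_pow_left₀ h5.le h4 2
    have h9 : A * area (pert γ ψ δ) * L ^ 2 ≤ A ^ 2 * (L + δ * L1 + δ ^ 2 * C) ^ 2 := by
      calc A * area (pert γ ψ δ) * L ^ 2 ≤ |A| * |area (pert γ ψ δ)| * L ^ 2 :=
            mul_le_mul_of_nonneg_right h7 (by positivity)
        _ = |A| * (|area (pert γ ψ δ)| * L ^ 2) := by ring
        _ ≤ |A| * (|A| * len (pert γ ψ δ) ^ 2) :=
            mul_le_mul_of_nonneg_left h3 (abs_nonneg _)
        _ = A ^ 2 * len (pert γ ψ δ) ^ 2 := by rw [← mul_assoc, abs_mul_abs_self]; ring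
        _ ≤ A ^ 2 * (L + δ * L1 + δ ^ 2 * C) ^ 2 :=
            mul_le_mul_of_nonneg_left h8 (by positivity)
    rw [h6] at h9
    simp only [hP]
    linarith
  have hmin : IsLocalMin P 0 := by
    have : Metric.ball (0 : ℝ) δ₀ ∈ 𝓝 (0 : ℝ) := Metric.ball_mem_nhds _ hδ₀
    filter_upwards [this] with δ hδ
    rw [hP0]
    rw [Metric.mem_ball, dist_zero_right, Real.norm_eq_abs] at hδ
    exact hPnn δ hδ
  have hder : HasDerivAt P (2 * A ^ 2 * L * L1 - A * A1 * L ^ 2) 0 := by
    have d1 : HasDerivAt (fun δ : ℝ => L + δ * L1 + δ ^ 2 * C) (L1 + 2 * 0 * C) 0 := by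
      have e1 : HasDerivAt (fun δ : ℝ => L + δ * L1) (1 * L1) 0 :=
        ((hasDerivAt_id (0 : ℝ)).mul_const L1).const_add L
      have e2 : HasDerivAt (fun δ : ℝ => δ ^ 2 * C) ((2 : ℕ) * (0 : ℝ) ^ (2 - 1) * C) 0 :=
        (hasDerivAt_pow 2 (0 : ℝ)).mul_const C
      exact (e1.add e2).congr_deriv (by norm_num)
    have d2 : HasDerivAt (fun δ : ℝ => A + δ * A1 + δ ^ 2 * A2) (A1 + 2 * 0 * A2) 0 := by
      have e1 : HasDerivAt (fun δ : ℝ => A + δ * A1) (1 * A1) 0 :=
        ((hasDerivAt_id (0 : ℝ)).mul_const A1).const_add A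
      have e2 : HasDerivAt (fun δ : ℝ => δ ^ 2 * A2) ((2 : ℕ) * (0 : ℝ) ^ (2 - 1) * A2) 0 :=
        (hasDerivAt_pow 2 (0 : ℝ)).mul_const A2
      exact (e1.add e2).congr_deriv (by norm_num)
    have d3 := (d1.pow 2).const_mul (A ^ 2)
    have d4 := ((d2.const_mul A).mul_const (L ^ 2))
    have d5 := d3.sub d4
    refine d5.congr_deriv ?_
    norm_num
    ring
  have hz := hmin.hasDerivAt_eq_zero hder
  have hfac : A * L * (2 * A * L1 - L * A1) = 0 := by
    rw [← hz]
    ring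
  rcases mul_eq_zero.mp hfac with h5 | h5
  · exact absurd h5 (mul_ne_zero hAne hL.ne')
  · linarith

/-- Euler-Lagrange equation. -/
lemma euler_lagrange (h : IsClosedCurve γ) (hs : DynamicallyStableCDF γ) (x : ℝ) :
    ((2 * area γ : ℝ) : ℂ) * deriv (tangent γ) x = Complex.I * (len γ : ℂ) * deriv γ x := by
  set ψ : ℝ → ℂ := fun x => ((2 * area γ : ℝ) : ℂ) * deriv (tangent γ) x
    - Complex.I * (len γ : ℂ) * deriv γ x with hψd
  have hψ : ContDiff ℝ ∞ ψ :=
    (contDiff_const.mul (contDiff_deriv' h.contDiff_tangent)).sub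
      (contDiff_const.mul h.contDiff_deriv)
  have hp : Function.Periodic ψ 1 := by
    intro x
    simp only [hψd, periodic_deriv h.periodic x, periodic_deriv h.periodic_tangent x]
  have hfo := first_order h hs hψ hp
  rw [parts_re h.contDiff_tangent hψ h.periodic_tangent hp] at hfo
  have i1 : IntervalIntegrable (fun x => (conj (deriv (tangent γ) x) * ψ x).re) volume 0 1 :=
    (Complex.continuous_re.comp ((Complex.continuous_conj.comp
      (contDiff_deriv' h.contDiff_tangent).continuous).mul hψ.continuous)).intervalIntegrable _ _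
  have i2 : IntervalIntegrable (fun x => (conj (ψ x) * deriv γ x).im) volume 0 1 :=
    (Complex.continuous_im.comp ((Complex.continuous_conj.comp
      hψ.continuous).mul h.continuous_deriv)).intervalIntegrable _ _
  have key : ∫ x in (0 : ℝ)..1, ‖ψ x‖ ^ 2 = 0 := by
    have e : ∀ x, ‖ψ x‖ ^ 2 = (2 * area γ) * (conj (deriv (tangent γ) x) * ψ x).re
        + len γ * (conj (ψ x) * deriv γ x).im := by
      intro x
      have h1 : ‖ψ x‖ ^ 2 = (conj (ψ x) * ψ x).re := by
        rw [mul_comm, Complex.mul_conj, Complex.normSq_eq_norm_sq]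
        norm_cast
      rw [h1]
      have h2 : conj (ψ x) * ψ x = ((2 * area γ : ℝ) : ℂ) * (conj (ψ x) * deriv (tangent γ) x)
          - Complex.I * ((len γ : ℂ) * (conj (ψ x) * deriv γ x)) := by
        have h4 : ψ x = ((2 * area γ : ℝ) : ℂ) * deriv (tangent γ) x
          - Complex.I * (len γ : ℂ) * deriv γ x := rfl
        calc conj (ψ x) * ψ x = conj (ψ x) * (((2 * area γ : ℝ) : ℂ) * deriv (tangent γ) x
              - Complex.I * (len γ : ℂ) * deriv γ x) := by rw [← h4]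
          _ = _ := by ring
      have h3 : (conj (ψ x) * deriv (tangent γ) x).re = (conj (deriv (tangent γ) x) * ψ x).re := by
        rw [← Complex.conj_re, map_mul, Complex.conj_conj, mul_comm]
      rw [h2, Complex.sub_re, Complex.re_ofReal_mul, h3, Complex.I_mul_re,
        Complex.im_ofReal_mul]
      ring
    simp_rw [e]
    rw [intervalIntegral.integral_add (i1.const_mul _) (i2.const_mul _),
      intervalIntegral.integral_const_mul, intervalIntegral.integral_const_mul]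
    linarith
  have hzero : ∀ x, ψ x = 0 := by
    intro x
    by_contra hne
    obtain ⟨y, hy, hxy⟩ := hp.exists_mem_Ico₀ (by norm_num) x
    rw [hxy] at hne
    have := intervalIntegral.integral_pos (f := fun x => ‖ψ x‖ ^ 2) (a := 0) (b := 1)
      (by norm_num) (hψ.continuous.norm.pow 2).continuousOn (fun x _ => by positivity)
      ⟨y, ⟨hy.1, hy.2.le⟩, by have := norm_pos_iff.mpr hne; positivity⟩
    linarith
  exact sub_eq_zero.mp (hzero x)

end Pool.Agent.H776R3.CDF
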